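import Pool.Agent.H63.UB.Hash
import Pool.Agent.H63.YL.Defs

/-!
# The sizes of the classes, and the stages
-/

set_option autoImplicit false
set_option linter.unusedSectionVars false

namespace Pool.Agent.H63.UB

open Finset Pool.Agent.H63.YL

/-! ### The stages -/

section Stage

variable {N : ℕ} (f : Fin N → ℕ)

/-- the first `s` points -/
def Stg (s : ℕ) : Set (Fin N) := {x | (((Tuple.sort f).symm x : Fin N) : ℕ) < s}

theorem stg_zero : Stg f 0 = ∅ := by
  ext x
  simp [Stg]

theorem stg_top : Stg f N = Set.univ := by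
  ext x
  simp only [Stg, Set.mem_ofPred_eq, Set.mem_univ, iff_true]
  exact Fin.is_lt _

theorem stg_succ {s : ℕ} (hs : s < N) :
    Stg f (s + 1) = insert (Tuple.sort f ⟨s, hs⟩) (Stg f s) ∧ Tuple.sort f ⟨s, hs⟩ ∉ Stg f s := by
  constructor
  · ext x
    simp only [Stg, Set.mem_ofPred_eq, Set.mem_insert_iff]
    rw [Nat.lt_succ_iff_lt_or_eq, or_comm]
    refine or_congr ?_ Iff.rfl
    constructor
    · intro h
      rw [← Equiv.symm_apply_eq]
      exact Fin.ext h
    · intro h
      rw [h]; simp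
  · simp [Stg]

theorem mem_stg {s : ℕ} (hs : s < N) {x : Fin N} (hx : f x ≠ f (Tuple.sort f ⟨s, hs⟩)) :
    x ∈ Stg f s ↔ f x < f (Tuple.sort f ⟨s, hs⟩) := by
  have hmono := Tuple.monotone_sort f
  have e : f x = (f ∘ Tuple.sort f) ((Tuple.sort f).symm x) := by simp
  constructor
  · intro h
    have h1 : (Tuple.sort f).symm x ≤ ⟨s, hs⟩ := le_of_lt h
    have h2 := hmono h1
    rw [← e] at h2
    exact lt_of_le_of_ne h2 hx
  · intro h
    by_contra h1
    have h2 : (⟨s, hs⟩ : Fin N) ≤ (Tuple.sort f).symm x := not_lt.1 h1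
    have h3 := hmono h2
    rw [← e] at h3
    exact absurd h (not_lt.2 h3)

end Stage

/-! ### The classes -/

namespace Par

variable {A : Par} {k N : ℕ}

theorem class_big (hN : A.w * A.p ≤ N) (a : Fin k → ZMod A.p) {x : Fin N}
    (hx : (x : ℕ) < A.w * A.p) :
    A.L ≤ {x' : Fin N | A.col a x' = A.col a x}.ncard := by
  classical
  have hp : 0 < A.p := A.prime.pos
  obtain ⟨j, hj⟩ : ∃ j, j = A.strip ((x : ℕ) / A.p) := ⟨_, rfl⟩
  have hjS : j < A.S := by rw [hj]; exact A.strip_lt _
  let v : ℕ → ℕ := fun i => (A.res a x + (A.poly a).eval ((j * A.L + i : ℕ) : ZMod A.p)).val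
  have hv : ∀ i, v i < A.p := fun i => ZMod.val_lt _
  have hrow : ∀ i, ((j * A.L + i) * A.p + v i) / A.p = j * A.L + i := by
    intro i
    rw [mul_comm, Nat.mul_add_div hp, Nat.div_eq_of_lt (hv i), add_zero]
  have hlt : ∀ i, i < A.L → (j * A.L + i) * A.p + v i < A.w * A.p := by
    intro i hi
    have h1 : j * A.L + i + 1 ≤ A.w := by
      have h2 : (j + 1) * A.L ≤ A.S * A.L := Nat.mul_le_mul_right _ hjS
      have h3 := A.S_mul
      have h4 : (j + 1) * A.L = j * A.L + A.L := by ring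
      omega
    calc (j * A.L + i) * A.p + v i < (j * A.L + i) * A.p + A.p := by
          have := hv i; omega
      _ = (j * A.L + i + 1) * A.p := by ring
      _ ≤ A.w * A.p := Nat.mul_le_mul_right _ h1
  have hcol : ∀ i, i < A.L → A.col a ((j * A.L + i) * A.p + v i) = A.col a x := by
    intro i hi
    rw [col_main (hlt i hi), col_main hx, hrow, ← hj]
    have h1 : A.strip (j * A.L + i) = j := by
      refine A.strip_eq hjS (by omega) ?_
      have h4 : (j + 1) * A.L = j * A.L + A.L := by ring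
      omega
    have h2 : A.res a ((j * A.L + i) * A.p + v i) = A.res a x := by
      unfold res
      rw [hrow]
      have h3 : (((j * A.L + i) * A.p + v i : ℕ) : ZMod A.p) = (v i : ZMod A.p) := by
        push_cast
        simp
      rw [h3]
      have h4 : ((v i : ℕ) : ZMod A.p) =
          A.res a x + (A.poly a).eval ((j * A.L + i : ℕ) : ZMod A.p) := ZMod.natCast_zmod_val _
      rw [h4]
      unfold res
      ring
    rw [h1, h2]
  have h1 : ((univ : Finset (Fin A.L)).image fun i : Fin A.L =>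
      (⟨(j * A.L + i) * A.p + v i, (hlt i i.2).trans_le hN⟩ : Fin N)).card = A.L := by
    rw [card_image_of_injective, card_univ, Fintype.card_fin]
    intro i i' h
    have h2 : (j * A.L + i) * A.p + v i = (j * A.L + i') * A.p + v i' := congrArg Fin.val h
    have h3 := hrow i
    rw [h2, hrow i'] at h3
    exact Fin.ext (by omega)
  calc A.L = _ := h1.symm
    _ = (((univ : Finset (Fin A.L)).image fun i : Fin A.L =>
      (⟨(j * A.L + i) * A.p + v i, (hlt i i.2).trans_le hN⟩ : Fin N) : Finset (Fin N)) :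
        Set (Fin N)).ncard := (Set.ncard_coe_finset _).symm
    _ ≤ _ := by
        refine Set.ncard_le_ncard ?_ (Set.toFinite _)
        intro y hy
        obtain ⟨i, -, rfl⟩ := mem_image.1 (mem_coe.1 hy)
        exact hcol i i.2

theorem class_small (a : Fin k → ZMod A.p) (c : ℕ) :
    {x : Fin N | A.col a x = c}.ncard ≤ 2 * A.L := by
  classical
  have h0 : {x : Fin N | A.col a x = c} = ((univ.filter fun x : Fin N => A.col a x = c :
      Finset (Fin N)) : Set (Fin N)) := by ext x; simp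
  rw [h0, Set.ncard_coe_finset]
  obtain ⟨Z, hZ⟩ : ∃ Z, Z = univ.filter fun x : Fin N => A.col a x = c := ⟨_, rfl⟩
  rw [← hZ]
  have hmem : ∀ x ∈ Z, A.col a x = c := by
    intro x hx
    rw [hZ] at hx
    exact (mem_filter.1 hx).2
  have hL := A.hL
  rcases Nat.lt_or_ge Z.card 2 with h1 | h1
  · omega
  have hmain : ∀ x ∈ Z, (x : ℕ) < A.w * A.p := by
    intro x hx
    obtain ⟨y, hy, hne⟩ : ∃ y ∈ Z, y ≠ x := by
      by_contra hcon
      push Not at hcon
      have h2 : Z ⊆ {x} := fun y hy => mem_singleton.2 (hcon y hy)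
      have h3 := card_le_card h2
      rw [card_singleton] at h3
      omega
    exact main_of_eq ((hmem x hx).trans (hmem y hy).symm) fun h => hne (Fin.ext h.symm)
  obtain ⟨x₀, hx₀⟩ : Z.Nonempty := by rw [← card_pos]; omega
  obtain ⟨j, hj⟩ : ∃ j, j = A.strip ((x₀ : ℕ) / A.p) := ⟨_, rfl⟩
  have h2 : Z.image (fun x : Fin N => (x : ℕ) / A.p) ⊆ Ico (j * A.L) ((j + 2) * A.L) := by
    intro u hu
    obtain ⟨x, hx, rfl⟩ := mem_image.1 hu
    obtain ⟨h3, -⟩ := eq_col (hmain x hx) (hmain _ hx₀) ((hmem x hx).trans (hmem _ hx₀).symm)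
    rw [mem_Ico, hj, ← h3]
    exact ⟨A.strip_le, A.lt_strip (row_lt (hmain x hx))⟩
  have h3 : (Z.image (fun x : Fin N => (x : ℕ) / A.p)).card = Z.card := by
    apply card_image_of_injOn
    intro x hx y hy hxy
    refine Fin.ext (row_inj (hmain x hx) (hmain y hy) ((hmem x hx).trans (hmem y hy).symm) ?_)
    have hxy' : (x : ℕ) / A.p = (y : ℕ) / A.p := hxy
    rw [hxy']
  rw [← h3]
  refine (card_le_card h2).trans ?_
  rw [Nat.card_Ico]
  have : (j + 2) * A.L = j * A.L + 2 * A.L := by ring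
  omega

open Classical in
/-- the colours which refine the classes by a stage -/
noncomputable def ucol (a : Fin k → ZMod A.p) (s : ℕ) (x : Fin N) : ℕ :=
  2 * A.col a x + if x ∈ Stg (fun x : Fin N => A.col a x) s then 1 else 0

theorem ucol_eq {a : Fin k → ZMod A.p} {s : ℕ} {x x' : Fin N} :
    ucol a s x = ucol a s x' ↔ A.col a x = A.col a x' ∧
      (x ∈ Stg (fun x : Fin N => A.col a x) s ↔ x' ∈ Stg (fun x : Fin N => A.col a x) s) := by
  unfold ucol
  constructor
  · intro h
    split_ifs at h with h1 h2 h2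
    · exact ⟨by omega, by simp [h1, h2]⟩
    · omega
    · omega
    · exact ⟨by omega, by simp [h1, h2]⟩
  · rintro ⟨h1, h2⟩
    rw [h1]
    by_cases h3 : x ∈ Stg (fun x : Fin N => A.col a x) s
    · rw [if_pos h3, if_pos (h2.1 h3)]
    · rw [if_neg h3, if_neg fun h => h3 (h2.2 h)]

/-- **Few points are rare.** -/
theorem rare_ucol (hN : A.w * A.p ≤ N) (hN' : N ≤ A.w * A.p + A.p) (a : Fin k → ZMod A.p)
    {s : ℕ} (hs : s ≤ N) : rare (ucol (A := A) (N := N) a s) A.L ≤ A.p + 2 * A.L := by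
  classical
  obtain ⟨f, hf⟩ : ∃ f : Fin N → ℕ, f = fun x : Fin N => A.col a x := ⟨_, rfl⟩
  obtain ⟨c, hc⟩ : ∃ c, ∀ x x' : Fin N, f x = f x' → f x ≠ c →
      (x ∈ Stg f s ↔ x' ∈ Stg f s) := by
    rcases Nat.lt_or_ge s N with h | h
    · refine ⟨f (Tuple.sort f ⟨s, h⟩), fun x x' h1 h2 => ?_⟩
      rw [mem_stg f h h2, mem_stg f h (h1 ▸ h2), h1]
    · refine ⟨0, fun x x' _ _ => ?_⟩
      have : s = N := by omega
      subst this
      rw [stg_top]
      simp
  have h1 : {x : Fin N | {x' : Fin N | ucol (A := A) a s x' = ucol a s x}.ncard < A.L} ⊆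
      {x : Fin N | A.w * A.p ≤ x} ∪ {x : Fin N | A.col a x = c} := by
    intro x hx
    by_contra hcon
    simp only [Set.mem_union, Set.mem_ofPred_eq, not_or, not_le] at hcon hx
    have h2 : {x' : Fin N | A.col a x' = A.col a x} ⊆
        {x' : Fin N | ucol (A := A) a s x' = ucol a s x} := by
      intro x' hx'
      refine ucol_eq.2 ⟨hx', ?_⟩
      rw [← hf]
      refine hc x' x (by rw [hf]; exact hx') ?_
      rw [hf]
      show A.col a x' ≠ c
      rw [show A.col a x' = A.col a x from hx']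
      exact hcon.2
    have h3 := class_big hN a hcon.1
    have h4 := Set.ncard_le_ncard h2 (Set.toFinite _)
    omega
  unfold rare
  refine (Set.ncard_le_ncard h1 (Set.toFinite _)).trans ((Set.ncard_union_le _ _).trans ?_)
  refine Nat.add_le_add ?_ (class_small a c)
  have h2 : {x : Fin N | A.w * A.p ≤ x} ⊆
      (((Ico (A.w * A.p) N).attach.image fun y => (⟨y.1, (mem_Ico.1 y.2).2⟩ : Fin N) :
        Finset (Fin N)) : Set (Fin N)) := by
    intro x hx
    rw [mem_coe, mem_image]
    exact ⟨⟨x, mem_Ico.2 ⟨hx, x.2⟩⟩, mem_attach _ _, rfl⟩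
  refine (Set.ncard_le_ncard h2 (Set.toFinite _)).trans ?_
  rw [Set.ncard_coe_finset]
  refine card_image_le.trans ?_
  rw [card_attach, Nat.card_Ico]
  omega

end Par

end Pool.Agent.H63.UB
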