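import Pool.Agent.H63.UB.Circ

/-!
# The number of nodes
-/

set_option autoImplicit false
set_option linter.unusedSectionVars false

namespace Pool.Agent.H63.UB

open Pool.Agent.H63.YL Finset

open Classical in
/-- the lists over `s` of length at most `w` -/
noncomputable def lists {α : Type} (s : Finset α) : ℕ → Finset (List α)
  | 0 => {[]}
  | w + 1 => {[]} ∪ (s ×ˢ lists s w).image fun y => y.1 :: y.2

theorem mem_lists {α : Type} {s : Finset α} : ∀ {w : ℕ} {l : List α}, l.length ≤ w →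
    (∀ x ∈ l, x ∈ s) → l ∈ lists s w := by
  classical
  intro w
  induction w with
  | zero =>
    intro l hl _
    have : l = [] := List.eq_nil_of_length_eq_zero (by omega)
    rw [this]
    exact mem_singleton_self _
  | succ w ih =>
    intro l hl hs
    unfold lists
    rcases l with _ | ⟨x, l⟩
    · exact mem_union_left _ (mem_singleton_self _)
    · rw [List.length_cons] at hl
      refine mem_union_right _ (mem_image.2 ⟨(x, l), mem_product.2 ⟨hs x List.mem_cons_self,
        ih (by dsimp only; omega) fun y hy => hs y (List.mem_cons_of_mem _ hy)⟩, rfl⟩)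

theorem card_lists {α : Type} (s : Finset α) (w : ℕ) : (lists s w).card ≤ (s.card + 1) ^ w := by
  classical
  induction w with
  | zero => unfold lists; simp
  | succ w ih =>
    unfold lists
    refine (card_union_le _ _).trans ?_
    refine (Nat.add_le_add_left (card_image_le.trans (card_product _ _).le) _).trans ?_
    rw [card_singleton, pow_succ]
    have h1 : 1 ≤ (s.card + 1) ^ w := Nat.one_le_pow _ _ (by omega)
    have h2 : s.card * (lists s w).card ≤ s.card * (s.card + 1) ^ w := Nat.mul_le_mul_left _ ih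
    calc 1 + s.card * (lists s w).card ≤ (s.card + 1) ^ w + s.card * (s.card + 1) ^ w := by omega
      _ = (s.card + 1) ^ w * (s.card + 1) := by ring

variable {P H : Type} (D : Dat P H) [Fintype P] [Fintype H] [Fintype D.Q] [Fintype D.T]

open Classical in
/-- a set which contains all good nodes -/
noncomputable def cover : ℕ → Finset (Nd D)
  | 0 => (univ : Finset (P × H)).image fun y => .var y.1 y.2
  | 1 => (lists (univ : Finset (P × H)) (D.k + 1)).image fun y => .cj y.toFinset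
  | 2 => {.top}
  | 3 => (univ : Finset P).image fun y => .pg y
  | 4 => (univ : Finset H).image fun y => .hl y
  | 5 => ((univ : Finset D.Q) ×ˢ range (D.m + 2) ×ˢ range (D.m + 1) ×ˢ range (D.K * D.K) ×ˢ
      range (D.k + 2)).image fun y => .cell y.1 y.2.1 y.2.2.1 y.2.2.2.1 y.2.2.2.2
  | 6 => ((univ : Finset D.Q) ×ˢ range (D.m + 2) ×ˢ range (D.m + 1) ×ˢ range (D.K * D.K) ×ˢ
      range (D.m + 2) ×ˢ range (D.m + 2)).image
        fun y => .pr y.1 y.2.1 y.2.2.1 y.2.2.2.1 y.2.2.2.2.1 y.2.2.2.2.2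
  | 7 => ((univ : Finset D.Q) ×ˢ range (D.m + 2) ×ˢ range (D.m + 1) ×ˢ range (D.K * D.K + 1) ×ˢ
      range (D.m + 2)).image fun y => .sn y.1 y.2.1 y.2.2.1 y.2.2.2.1 y.2.2.2.2
  | 8 => (univ : Finset D.Q).image fun y => .hv y
  | 9 => (univ : Finset (D.Q × D.T)).image fun y => .rn y.1 y.2
  | 10 => ((univ : Finset (Bool ⊕ D.T)) ×ˢ
      lists (univ : Finset (Bool × (Bool ⊕ D.T))) D.w).image fun y => .pc y.1 y.2
  | 11 => (lists ((univ : Finset (Bool ⊕ D.T)) ×ˢ
      lists (univ : Finset (Bool × (Bool ⊕ D.T))) D.w) D.w).image fun y => .ch y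
  | 12 => (lists (univ : Finset Bool) D.w ×ˢ
      (univ : Finset ((Bool ⊕ D.T) × (Bool ⊕ D.T)))).image fun y => .vn y.1 y.2.1 y.2.2
  | 13 => ((univ : Finset Bool) ×ˢ lists (univ : Finset Bool) D.w ×ˢ
      (univ : Finset ((Bool ⊕ D.T) × (Bool ⊕ D.T)))).image fun y => .kk y.1 y.2.1 y.2.2.1 y.2.2.2
  | 14 => (lists (univ : Finset Bool) D.w ×ˢ
      (univ : Finset (Bool ⊕ D.T))).image fun y => .rp y.1 y.2
  | _ => (lists (univ : Finset Bool) D.w).image fun y => .ex y

theorem good_cover {a : Nd D} (ha : Good a) : ∃ i < 16, a ∈ cover D i := by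
  classical
  cases a with
  | var x y => exact ⟨0, by norm_num, mem_image.2 ⟨(x, y), mem_univ _, rfl⟩⟩
  | cj μ =>
    refine ⟨1, by norm_num, mem_image.2 ⟨μ.toList, mem_lists ?_ (fun _ _ => mem_univ _), ?_⟩⟩
    · rw [length_toList]; exact ha
    · rw [toList_toFinset]
  | top => exact ⟨2, by norm_num, mem_singleton_self _⟩
  | pg x => exact ⟨3, by norm_num, mem_image.2 ⟨x, mem_univ _, rfl⟩⟩
  | hl y => exact ⟨4, by norm_num, mem_image.2 ⟨y, mem_univ _, rfl⟩⟩
  | cell q s s' r l =>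
    obtain ⟨h1, h2, h3, h4⟩ := ha
    refine ⟨5, by norm_num, mem_image.2 ⟨(q, s, s', r, l), ?_, rfl⟩⟩
    simp only [mem_product, mem_univ, mem_range, true_and]
    omega
  | pr q s s' r a b =>
    obtain ⟨h1, h2, h3, h4, h5⟩ := ha
    refine ⟨6, by norm_num, mem_image.2 ⟨(q, s, s', r, a, b), ?_, rfl⟩⟩
    simp only [mem_product, mem_univ, mem_range, true_and]
    omega
  | sn q s s' r l =>
    obtain ⟨h1, h2, h3, h4⟩ := ha
    refine ⟨7, by norm_num, mem_image.2 ⟨(q, s, s', r, l), ?_, rfl⟩⟩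
    simp only [mem_product, mem_univ, mem_range, true_and]
    omega
  | hv q => exact ⟨8, by norm_num, mem_image.2 ⟨q, mem_univ _, rfl⟩⟩
  | rn q τ => exact ⟨9, by norm_num, mem_image.2 ⟨(q, τ), mem_univ _, rfl⟩⟩
  | pc z l =>
    exact ⟨10, by norm_num, mem_image.2 ⟨(z, l), mem_product.2 ⟨mem_univ _, mem_lists ha fun _ _ => mem_univ _⟩,
      rfl⟩⟩
  | ch l =>
    exact ⟨11, by norm_num, mem_image.2 ⟨l, mem_lists ha.1 fun s hs => mem_product.2 ⟨mem_univ _,
      mem_lists (ha.2 s hs).le fun _ _ => mem_univ _⟩, rfl⟩⟩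
  | vn b z e =>
    exact ⟨12, by norm_num, mem_image.2 ⟨(b, z, e), mem_product.2 ⟨mem_lists ha fun _ _ => mem_univ _,
      mem_univ _⟩, rfl⟩⟩
  | kk c b z i =>
    exact ⟨13, by norm_num, mem_image.2 ⟨(c, b, z, i), mem_product.2 ⟨mem_univ _, mem_product.2
      ⟨mem_lists ha fun _ _ => mem_univ _, mem_univ _⟩⟩, rfl⟩⟩
  | rp v z =>
    exact ⟨14, by norm_num, mem_image.2 ⟨(v, z), mem_product.2 ⟨mem_lists ha fun _ _ => mem_univ _,
      mem_univ _⟩, rfl⟩⟩
  | ex v => exact ⟨15, by norm_num, mem_image.2 ⟨v, mem_lists ha fun _ _ => mem_univ _, rfl⟩⟩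

theorem finite_good : Finite {a : Nd D // Good a} := by
  classical
  have h1 : {a : Nd D | Good a} ⊆ (((range 16).biUnion (cover D) : Finset (Nd D)) : Set (Nd D)) := by
    intro a ha
    obtain ⟨i, hi16, hi⟩ := good_cover D ha
    exact mem_biUnion.2 ⟨i, mem_range.2 hi16, hi⟩
  exact (Set.Finite.subset (finite_toSet _) h1).to_subtype

variable {D}

theorem card_cover {B : ℕ} (hB : B = 2 ^ D.w) (hw : 1 ≤ D.w) (hQ : Fintype.card D.Q ≤ B)
    (hT : Fintype.card D.T + 2 ≤ B) (hP : Fintype.card P ≤ B) (hH : Fintype.card H ≤ B)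
    (hm : D.m + 2 ≤ B) (hK : D.K ≤ B) (hk : D.k + 2 ≤ D.w) (i : ℕ) (hi : i < 16) :
    (cover D i).card ≤ 2 ^ (7 * D.w ^ 3) := by
  classical
  obtain ⟨w, hwD⟩ : ∃ w, w = D.w := ⟨_, rfl⟩
  rw [← hwD] at hB hw hk ⊢
  have hB2 : 2 ≤ B := by
    rw [hB]
    calc 2 = 2 ^ 1 := (pow_one 2).symm
      _ ≤ 2 ^ w := Nat.pow_le_pow_right (by norm_num) hw
  have hwB : w ≤ B := by rw [hB]; exact Nat.lt_two_pow_self.le
  have hw1 : w ≤ w ^ 3 := Nat.le_self_pow (by norm_num) _
  have hw2 : w ^ 2 ≤ w ^ 3 := Nat.pow_le_pow_right hw (by norm_num)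
  have hfin : ∀ j, j ≤ 7 → B ^ j ≤ 2 ^ (7 * w ^ 3) := by
    intro j hj
    rw [hB, ← pow_mul]
    refine Nat.pow_le_pow_right (by norm_num) ?_
    calc w * j ≤ w ^ 3 * 7 := Nat.mul_le_mul hw1 hj
      _ = 7 * w ^ 3 := mul_comm _ _
  have hBp : ∀ {i j : ℕ}, i ≤ j → B ^ i ≤ B ^ j := fun h => Nat.pow_le_pow_right (by omega) h
  have hU : Fintype.card (Bool ⊕ D.T) ≤ B := by
    rw [Fintype.card_sum, Fintype.card_bool]; omega
  have hbool : (lists (univ : Finset Bool) w).card ≤ B ^ 2 := by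
    refine (card_lists _ _).trans ?_
    rw [card_univ, Fintype.card_bool, hB, ← pow_mul]
    calc (2 + 1) ^ w ≤ (2 ^ 2) ^ w := Nat.pow_le_pow_left (by norm_num) _
      _ = 2 ^ (w * 2) := by rw [← pow_mul, mul_comm]
  have hl : (lists (univ : Finset (Bool × (Bool ⊕ D.T))) w).card ≤ 2 ^ ((w + 2) * w) := by
    refine (card_lists _ _).trans ?_
    rw [card_univ, Fintype.card_prod, Fintype.card_bool, pow_mul]
    refine Nat.pow_le_pow_left ?_ _
    rw [pow_add, ← hB]
    omega
  have hpc : Fintype.card (Bool ⊕ D.T) * (lists (univ : Finset (Bool × (Bool ⊕ D.T))) w).card ≤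
      2 ^ (w + (w + 2) * w) := by
    rw [pow_add, ← hB]
    exact Nat.mul_le_mul hU hl
  have hkB : D.k + 2 ≤ B := hk.trans hwB
  interval_cases i
  · refine card_image_le.trans ?_
    rw [card_univ, Fintype.card_prod]
    refine (Nat.mul_le_mul hP hH).trans ?_
    rw [← pow_two]; exact hfin 2 (by norm_num)
  · refine card_image_le.trans ((card_lists _ _).trans ?_)
    rw [card_univ, Fintype.card_prod]
    have h1 : Fintype.card P * Fintype.card H + 1 ≤ 2 ^ (2 * w + 1) := by
      have h2 := Nat.mul_le_mul hP hH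
      have h3 : 2 ^ (2 * w + 1) = B * B * 2 := by
        rw [hB]; ring
      rw [h3]
      have h4 : 1 ≤ B * B := Nat.mul_pos (by omega) (by omega)
      omega
    calc (Fintype.card P * Fintype.card H + 1) ^ (D.k + 1) ≤ (2 ^ (2 * w + 1)) ^ (D.k + 1) :=
          Nat.pow_le_pow_left h1 _
      _ = 2 ^ ((2 * w + 1) * (D.k + 1)) := (pow_mul _ _ _).symm
      _ ≤ 2 ^ (7 * w ^ 3) := by
          refine Nat.pow_le_pow_right (by norm_num) ?_
          calc (2 * w + 1) * (D.k + 1) ≤ (3 * w) * w := Nat.mul_le_mul (by omega) (by omega)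
            _ = 3 * w ^ 2 := by ring
            _ ≤ 7 * w ^ 3 := Nat.mul_le_mul (by norm_num) hw2
  · show (({Nd.top} : Finset (Nd D))).card ≤ _
    rw [card_singleton]
    exact Nat.one_le_two_pow
  · refine card_image_le.trans ?_
    rw [card_univ]
    refine hP.trans ?_
    have := hfin 1 (by norm_num)
    rwa [pow_one] at this
  · refine card_image_le.trans ?_
    rw [card_univ]
    refine hH.trans ?_
    have := hfin 1 (by norm_num)
    rwa [pow_one] at this
  · refine card_image_le.trans ?_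
    simp only [card_product, card_range, card_univ]
    calc Fintype.card D.Q * ((D.m + 2) * ((D.m + 1) * (D.K * D.K * (D.k + 2))))
        ≤ B * (B * (B * (B * B * B))) :=
          Nat.mul_le_mul hQ (Nat.mul_le_mul hm (Nat.mul_le_mul (by omega)
            (Nat.mul_le_mul (Nat.mul_le_mul hK hK) hkB)))
      _ = B ^ 6 := by ring
      _ ≤ _ := hfin 6 (by norm_num)
  · refine card_image_le.trans ?_
    simp only [card_product, card_range, card_univ]
    calc Fintype.card D.Q * ((D.m + 2) * ((D.m + 1) * (D.K * D.K * ((D.m + 2) * (D.m + 2)))))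
        ≤ B * (B * (B * (B * B * (B * B)))) :=
          Nat.mul_le_mul hQ (Nat.mul_le_mul hm (Nat.mul_le_mul (by omega)
            (Nat.mul_le_mul (Nat.mul_le_mul hK hK) (Nat.mul_le_mul hm hm))))
      _ = B ^ 7 := by ring
      _ ≤ _ := hfin 7 (by norm_num)
  · refine card_image_le.trans ?_
    simp only [card_product, card_range, card_univ]
    have h1 : D.K * D.K + 1 ≤ B * B * B := by
      have h2 := Nat.mul_le_mul hK hK
      have h3 : 1 ≤ B * B := Nat.mul_pos (by omega) (by omega)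
      calc D.K * D.K + 1 ≤ B * B * 2 := by omega
        _ ≤ B * B * B := Nat.mul_le_mul_left _ hB2
    calc Fintype.card D.Q * ((D.m + 2) * ((D.m + 1) * ((D.K * D.K + 1) * (D.m + 2))))
        ≤ B * (B * (B * (B * B * B * B))) :=
          Nat.mul_le_mul hQ (Nat.mul_le_mul hm (Nat.mul_le_mul (by omega)
            (Nat.mul_le_mul h1 hm)))
      _ = B ^ 7 := by ring
      _ ≤ _ := hfin 7 (by norm_num)
  · refine card_image_le.trans ?_
    rw [card_univ]
    refine hQ.trans ?_
    have := hfin 1 (by norm_num)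
    rwa [pow_one] at this
  · refine card_image_le.trans ?_
    rw [card_univ, Fintype.card_prod]
    refine (Nat.mul_le_mul hQ (show Fintype.card D.T ≤ B by omega)).trans ?_
    rw [← pow_two]; exact hfin 2 (by norm_num)
  · refine card_image_le.trans ?_
    rw [card_product, card_univ, ← hwD]
    refine hpc.trans (Nat.pow_le_pow_right (by norm_num) ?_)
    calc w + (w + 2) * w = w ^ 2 + 3 * w := by ring
      _ ≤ w ^ 3 + 3 * w ^ 3 := Nat.add_le_add hw2 (Nat.mul_le_mul_left 3 hw1)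
      _ ≤ 7 * w ^ 3 := by omega
  · refine card_image_le.trans ((card_lists _ _).trans ?_)
    rw [card_product, card_univ, ← hwD]
    calc (Fintype.card (Bool ⊕ D.T) *
          (lists (univ : Finset (Bool × (Bool ⊕ D.T))) w).card + 1) ^ w
        ≤ (2 ^ (w + (w + 2) * w + 1)) ^ w := by
          refine Nat.pow_le_pow_left ?_ _
          rw [pow_succ]
          have : 1 ≤ 2 ^ (w + (w + 2) * w) := Nat.one_le_two_pow
          omega
      _ = 2 ^ ((w + (w + 2) * w + 1) * w) := (pow_mul _ _ _).symm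
      _ ≤ 2 ^ (7 * w ^ 3) := by
          refine Nat.pow_le_pow_right (by norm_num) ?_
          calc (w + (w + 2) * w + 1) * w = w ^ 3 + 3 * w ^ 2 + w := by ring
            _ ≤ w ^ 3 + 3 * w ^ 3 + w ^ 3 := by omega
            _ ≤ 7 * w ^ 3 := by omega
  · refine card_image_le.trans ?_
    rw [card_product, card_univ, Fintype.card_prod, ← hwD]
    calc _ ≤ B ^ 2 * (B * B) := Nat.mul_le_mul hbool (Nat.mul_le_mul hU hU)
      _ = B ^ 4 := by ring
      _ ≤ _ := hfin 4 (by norm_num)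
  · refine card_image_le.trans ?_
    simp only [card_product, card_univ, Fintype.card_prod, Fintype.card_bool]
    rw [← hwD]
    calc _ ≤ B * (B ^ 2 * (B * B)) :=
          Nat.mul_le_mul hB2 (Nat.mul_le_mul hbool (Nat.mul_le_mul hU hU))
      _ = B ^ 5 := by ring
      _ ≤ _ := hfin 5 (by norm_num)
  · refine card_image_le.trans ?_
    rw [card_product, card_univ, ← hwD]
    calc _ ≤ B ^ 2 * B := Nat.mul_le_mul hbool hU
      _ = B ^ 3 := by ring
      _ ≤ _ := hfin 3 (by norm_num)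
  · refine card_image_le.trans ?_
    rw [← hwD]
    exact hbool.trans (hfin 2 (by norm_num))

theorem card_good {B : ℕ} (hB : B = 2 ^ D.w) (hw : 1 ≤ D.w) (hQ : Fintype.card D.Q ≤ B)
    (hT : Fintype.card D.T + 2 ≤ B) (hP : Fintype.card P ≤ B) (hH : Fintype.card H ≤ B)
    (hm : D.m + 2 ≤ B) (hK : D.K ≤ B) (hk : D.k + 2 ≤ D.w) :
    Nat.card {a : Nd D // Good a} ≤ 2 ^ (11 * D.w ^ 3) := by
  classical
  have h1 : {a : Nd D | Good a} ⊆ (((range 16).biUnion (cover D) : Finset (Nd D)) : Set (Nd D)) := by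
    intro a ha
    obtain ⟨i, hi16, hi⟩ := good_cover D ha
    exact mem_biUnion.2 ⟨i, mem_range.2 hi16, hi⟩
  have h2 : Nat.card {a : Nd D // Good a} = {a : Nd D | Good a}.ncard := rfl
  rw [h2]
  refine (Set.ncard_le_ncard h1 (finite_toSet _)).trans ?_
  rw [Set.ncard_coe_finset]
  refine card_biUnion_le.trans ?_
  calc ∑ i ∈ range 16, (cover D i).card ≤ ∑ _i ∈ range 16, 2 ^ (7 * D.w ^ 3) :=
        sum_le_sum fun i hi => card_cover hB hw hQ hT hP hH hm hK hk i (mem_range.1 hi)
    _ = 2 ^ 4 * 2 ^ (7 * D.w ^ 3) := by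
        rw [sum_const, card_range, smul_eq_mul]; norm_num
    _ = 2 ^ (4 + 7 * D.w ^ 3) := (pow_add _ _ _).symm
    _ ≤ 2 ^ (11 * D.w ^ 3) := by
        refine Nat.pow_le_pow_right (by norm_num) ?_
        have : 1 ≤ D.w ^ 3 := Nat.one_le_pow _ _ hw
        omega

end Pool.Agent.H63.UB
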