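import Pool.Agent.H63.UB.Sum

/-!
# The counters of the cells
-/

set_option autoImplicit false
set_option linter.unusedSectionVars false

namespace Pool.Agent.H63.UB

open Pool.Agent.H63.YL

variable {P H : Type} {C : Circuit P H} {k : ℕ}

/-- a partial matching -/
def Mt (μ : Finset (P × H)) : Prop := ∀ p ∈ μ, ∀ q ∈ μ, p.1 = q.1 ∨ p.2 = q.2 → p = q

theorem Mt.mono {μ ν : Finset (P × H)} (h : Mt ν) (hs : μ ⊆ ν) : Mt μ :=
  fun p hp q hq => h p (hs hp) q (hs hq)

/-- the basic nodes -/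
structure Base (C : Circuit P H) (k : ℕ) where
  /-- the variables -/
  vr : P → H → C.N
  vr_gate : ∀ i j, C.gate (vr i j) = .var i j
  /-- conjunctions of variables -/
  cj : Finset (P × H) → C.N
  cj_gate : ∀ μ, μ.card ≤ k + 1 → C.gate (cj μ) = .and {x | ∃ p ∈ μ, x = ⟨vr p.1 p.2, true⟩}
  /-- the empty conjunction -/
  top : C.N
  top_gate : C.gate top = .and ∅

variable (B : Base C k)

theorem Base.cjE {μ : Finset (P × H)} (hμ : μ.card ≤ k + 1) {p : P × H} (hp : p ∈ μ) :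
    Pv C [⟨B.cj μ, false⟩, ⟨B.vr p.1 p.2, true⟩] :=
  Pv.andE (B.cj_gate μ hμ) ⟨p, hp, rfl⟩

theorem Base.cjS {μ ν : Finset (P × H)} (hμ : μ.card ≤ k + 1) (h : ν ⊆ μ) :
    Pv C [⟨B.cj ν, true⟩, ⟨B.cj μ, false⟩] := by
  refine Pv.andI (B.cj_gate ν ((Finset.card_le_card h).trans hμ)) ?_ (by simp [W])
  rintro _ ⟨p, hp, rfl⟩
  exact (B.cjE hμ (h hp)).one' (by simp [W]) fun α => by simp; tauto

include B in
theorem Base.topI : Pv C [⟨B.top, true⟩] :=
  Pv.andI B.top_gate (fun _ hx => absurd hx (Set.notMem_empty _)) (by simp [W])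

/-- `c` counts the edges in the region `D`, up to `k + 1` -/
structure IsCell (B : Base C k) (D : Set (P × H)) (c : ℕ → Lit C.N) : Prop where
  small : ∀ T ≤ k + 1, ∃ a, c T = ⟨a, false⟩ ∧
    C.gate a = .and {x | ∃ μ : Finset (P × H), Mt μ ∧ (μ : Set (P × H)) ⊆ D ∧ μ.card = T ∧
      x = ⟨B.cj μ, false⟩}
  big : ∀ T, k + 1 < T → c T = ⟨B.top, false⟩

variable {B} {D D' : Set (P × H)} {c c' : ℕ → Lit C.N}

theorem IsCell.elim (h : IsCell B D c) {T : ℕ} {s : List (Lit C.N)} (hs : s.length ≤ 20)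
    (hyp : ∀ μ : Finset (P × H), Mt μ → (μ : Set (P × H)) ⊆ D → μ.card = T → T ≤ k + 1 →
      Pv C (⟨B.cj μ, false⟩ :: s)) : Pv C ((c T).neg :: s) := by
  rcases Nat.lt_or_ge (k + 1) T with hT | hT
  · rw [h.big T hT]
    refine B.topI.of1 (fun α => ?_) (by simp [W]; omega)
    simp [Lit.neg]
    tauto
  · obtain ⟨a, ha, hg⟩ := h.small T hT
    rw [ha]
    refine Pv.andI hg ?_ (by simp [W]; omega)
    rintro _ ⟨μ, h1, h2, h3, rfl⟩
    exact hyp μ h1 h2 h3 hT

theorem IsCell.intro (h : IsCell B D c) {μ : Finset (P × H)} (h1 : Mt μ)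
    (h2 : (μ : Set (P × H)) ⊆ D) (h3 : μ.card ≤ k + 1) :
    Pv C [⟨B.cj μ, false⟩, c μ.card] := by
  obtain ⟨a, ha, hg⟩ := h.small μ.card h3
  rw [ha]
  refine (Pv.andE hg ⟨μ, h1, h2, rfl, rfl⟩).one' (by simp [W]) fun α => ?_
  simp
  tauto

theorem IsCell.isCtr (h : IsCell B D c) (M : ℕ) : IsCtr C M c := by
  classical
  refine ⟨?_, fun T _ => ?_⟩
  · have h1 := h.intro (μ := ∅) (by intro p hp; simp at hp) (by simp) (by simp)
    rw [Finset.card_empty] at h1
    have h2 : Pv C [⟨B.cj ∅, true⟩] := by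
      refine Pv.andI (B.cj_gate ∅ (by simp)) ?_ (by simp [W])
      rintro _ ⟨p, hp, -⟩
      simp at hp
    exact h1.two' h2 (by simp [W]) fun α => by simp; tauto
  · refine h.elim (by simp) fun μ h1 h2 h3 hT => ?_
    obtain ⟨q, hq⟩ : μ.Nonempty := by rw [← Finset.card_pos]; omega
    have h4 : μ.erase q ⊆ μ := Finset.erase_subset _ _
    have h5 : (μ.erase q).card = T := by rw [Finset.card_erase_of_mem hq]; omega
    have h6 := h.intro (μ := μ.erase q) (h1.mono h4)
      (fun p hp => h2 (h4 hp)) (by omega)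
    rw [h5] at h6
    exact h6.two' (B.cjS (ν := μ.erase q) (by omega) h4) (by simp [W]) fun α => by simp; tauto

theorem IsCell.isNil (h : IsCell B ∅ c) (M : ℕ) : IsNil C M c := by
  intro T _
  refine h.elim (by simp) fun μ _ h2 h3 _ => ?_
  exfalso
  obtain ⟨q, hq⟩ : μ.Nonempty := by rw [← Finset.card_pos]; omega
  exact h2 hq

variable {s : List (Lit C.N)} {M : ℕ}

theorem IsCell.mono (h : IsCell B D c) (h' : IsCell B D' c') (hD : D ⊆ D')
    (hs : s.length ≤ 10) : Rl C M s c c' 0 0 := by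
  intro T _ _
  refine h.elim (by simp; omega) fun μ h1 h2 h3 hT => ?_
  have h4 := h'.intro h1 (h2.trans hD) (by omega)
  rw [h3] at h4
  refine h4.of1 (fun α => ?_) (by simp [W]; omega)
  simp
  tauto

theorem IsCell.up (h : IsCell B D c) (h' : IsCell B D' c') (hD : D ⊆ D') {x : P} {y : H}
    (hxy : (x, y) ∈ D') (hx : ∀ p ∈ D, p.1 ≠ x) (hs : s.length ≤ 10)
    (hv : ⟨B.vr x y, false⟩ ∈ s) {u : Lit C.N} (hu : u ∈ s) (hcu : Pv C [(c (k + 1)).neg, u]) :
    Rl C M s c c' 0 1 := by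
  classical
  intro T _ _
  rcases eq_or_ne T (k + 1) with rfl | hTk
  · refine hcu.weak ?_ (by simp [W]; omega)
    intro z hz
    simp only [List.mem_cons, List.not_mem_nil, or_false] at hz
    rcases hz with rfl | rfl
    · exact List.mem_cons_self
    · exact List.mem_cons_of_mem _ (List.mem_cons_of_mem _ hu)
  have hv' : ∀ α : C.N → Prop, ¬ α (B.vr x y) → ∃ z ∈ s, Tr α z :=
    fun α hα => ⟨_, hv, by rw [tr_false]; exact hα⟩
  refine h.elim (by simp; omega) fun μ h1 h2 h3 hT => ?_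
  by_cases hy : ∃ p ∈ μ, p.2 = y
  · obtain ⟨⟨x', y'⟩, hp, rfl⟩ := hy
    have hne : x' ≠ x := hx _ (h2 hp)
    have h4 := B.cjE (μ := μ) (by omega) hp
    have h5 : Pv C [⟨B.vr x' y', false⟩, ⟨B.vr x y', false⟩] :=
      Pv.onePigeon hne (B.vr_gate _ _) (B.vr_gate _ _)
    refine h4.of2 h5 (fun α => ?_) (by simp [W]; omega)
    have := hv' α
    simp
    tauto
  · push Not at hy
    have h4 : (x, y) ∉ μ := fun hm => hy _ hm rfl
    have h5 : Mt (insert (x, y) μ) := by
      intro p hp q hq hpq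
      rcases Finset.mem_insert.1 hp with rfl | hp
      · rcases Finset.mem_insert.1 hq with rfl | hq
        · rfl
        · rcases hpq with h6 | h6
          · exact absurd h6.symm (hx q (h2 hq))
          · exact absurd h6.symm (hy q hq)
      · rcases Finset.mem_insert.1 hq with rfl | hq
        · rcases hpq with h6 | h6
          · exact absurd h6 (hx p (h2 hp))
          · exact absurd h6 (hy p hp)
        · exact h1 p hp q hq hpq
    have h6 : (insert (x, y) μ).card = T + 1 := by rw [Finset.card_insert_of_notMem h4, h3]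
    have h7 : ((insert (x, y) μ : Finset (P × H)) : Set (P × H)) ⊆ D' := by
      intro p hp
      rcases Finset.mem_insert.1 hp with rfl | hp
      · exact hxy
      · exact hD (h2 hp)
    have h8 := h'.intro h5 h7 (by omega)
    rw [h6] at h8
    have h9 : Pv C [⟨B.cj (insert (x, y) μ), true⟩, ⟨B.cj μ, false⟩, ⟨B.vr x y, false⟩] := by
      refine Pv.andI (B.cj_gate _ (by omega)) ?_ (by simp [W])
      rintro _ ⟨p, hp, rfl⟩
      rcases Finset.mem_insert.1 hp with rfl | hp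
      · exact Pv.zero' (by simp [W]) fun α => by simp; tauto
      · exact (B.cjE (μ := μ) (by omega) hp).one' (by simp [W]) fun α => by simp; tauto
    refine h8.of2 h9 (fun α => ?_) (by simp [W]; omega)
    have := hv' α
    simp
    tauto

/-- removing a hole: the cell which contains the edge -/
theorem IsCell.down (h : IsCell B D c) (h' : IsCell B D' c') {y : H}
    (hD : ∀ p ∈ D', p.2 ≠ y → p ∈ D) (hs : s.length ≤ 10) : Rl C M s c' c 1 0 := by
  classical
  intro T _ _
  refine h'.elim (by simp; omega) fun μ h1 h2 h3 hT => ?_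
  obtain ⟨q, hq, hqD⟩ : ∃ q ∈ μ, ((μ.erase q : Finset (P × H)) : Set (P × H)) ⊆ D := by
    by_cases hy : ∃ p ∈ μ, p.2 = y
    · obtain ⟨q, hq, hqy⟩ := hy
      refine ⟨q, hq, ?_⟩
      intro p hp
      obtain ⟨h4, h5⟩ := Finset.mem_erase.1 hp
      exact hD p (h2 h5) fun h6 => h4 (h1 p h5 q hq (Or.inr (h6.trans hqy.symm)))
    · push Not at hy
      obtain ⟨q, hq⟩ : μ.Nonempty := by rw [← Finset.card_pos]; omega
      refine ⟨q, hq, ?_⟩
      intro p hp
      have h5 := Finset.mem_of_mem_erase (Finset.mem_coe.1 hp)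
      exact hD p (h2 h5) (hy p h5)
  have h4 : μ.erase q ⊆ μ := Finset.erase_subset _ _
  have h5 : (μ.erase q).card = T := by rw [Finset.card_erase_of_mem hq]; omega
  have h6 := h.intro (h1.mono h4) hqD (by omega)
  rw [h5] at h6
  refine h6.of2 (B.cjS (ν := μ.erase q) (by omega) h4) (fun α => ?_) (by simp [W]; omega)
  simp
  tauto

/-- removing a hole: the other cells -/
theorem IsCell.stay (h : IsCell B D c) (h' : IsCell B D' c') {x : P} {y : H}
    (hD : ∀ p ∈ D', p.2 ≠ y → p ∈ D) (hxy : (x, y) ∉ D') (hs : s.length ≤ 10)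
    (hv : ⟨B.vr x y, false⟩ ∈ s) : Rl C M s c' c 0 0 := by
  classical
  intro T _ _
  have hv' : ∀ α : C.N → Prop, ¬ α (B.vr x y) → ∃ z ∈ s, Tr α z :=
    fun α hα => ⟨_, hv, by rw [tr_false]; exact hα⟩
  refine h'.elim (by simp; omega) fun μ h1 h2 h3 hT => ?_
  by_cases hy : ∃ p ∈ μ, p.2 = y
  · obtain ⟨⟨x', y'⟩, hp, rfl⟩ := hy
    have hne : x' ≠ x := by
      rintro rfl
      exact hxy (h2 hp)
    have h4 := B.cjE (μ := μ) (by omega) hp
    have h5 : Pv C [⟨B.vr x' y', false⟩, ⟨B.vr x y', false⟩] :=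
      Pv.onePigeon hne (B.vr_gate _ _) (B.vr_gate _ _)
    refine h4.of2 h5 (fun α => ?_) (by simp [W]; omega)
    have := hv' α
    simp
    tauto
  · push Not at hy
    have h4 := h.intro h1 (fun p hp => hD p (h2 hp) (hy p hp)) (by omega)
    rw [h3] at h4
    refine h4.of1 (fun α => ?_) (by simp [W]; omega)
    simp
    tauto

end Pool.Agent.H63.UB
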