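import Pool.Agent.H63.UB.Cell

/-!
# Some cell contains many edges
-/

set_option autoImplicit false
set_option linter.unusedSectionVars false

namespace Pool.Agent.H63.UB

open Pool.Agent.H63.YL

variable {P H : Type} {C : Circuit P H} {k : ℕ}

/-- the region of the cell `r` restricted to the stages `s` and `s'` -/
def Rg (cu : P → ℕ) (cv : H → ℕ) (K : ℕ) (X : ℕ → Set P) (Y : ℕ → Set H) (s s' r : ℕ) :
    Set (P × H) :=
  {p | p.1 ∈ X s ∧ p.2 ∈ Y s' ∧ cu p.1 * K + cv p.2 = r}

/-- **Some cell contains more than `k` edges.** -/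
theorem heavy (B : Base C k) {cu : P → ℕ} {cv : H → ℕ} {K m : ℕ} (hcu : ∀ x, cu x < K)
    (hcv : ∀ y, cv y < K) {X : ℕ → Set P} {Y : ℕ → Set H} {px : ℕ → P} {hy : ℕ → H}
    (hX0 : X 0 = ∅) (hX : ∀ s, s < m + 1 → X (s + 1) = insert (px s) (X s) ∧ px s ∉ X s)
    (hXm : X (m + 1) = Set.univ)
    (hY0 : Y 0 = ∅) (hY : ∀ s, s < m → Y (s + 1) = insert (hy s) (Y s)) (hYm : Y m = Set.univ)
    {cell tot : ℕ → ℕ → ℕ → ℕ → Lit C.N}
    (hcell : ∀ s s' r, s ≤ m + 1 → s' ≤ m → r < K * K →
      IsCell B (Rg cu cv K X Y s s' r) (cell s s' r))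
    (htot : ∀ s s', s ≤ m + 1 → s' ≤ m → IsTot C (m + 1) (K * K) (cell s s') (tot s s'))
    {u : Lit C.N} (hu : ∀ s s' r, s ≤ m + 1 → s' ≤ m → r < K * K →
      Pv C [(cell s s' r (k + 1)).neg, u])
    {pg : P → C.N} (hpg : ∀ x, C.gate (pg x) = .and {z | ∃ y, z = ⟨B.vr x y, false⟩})
    {hl : H → C.N} (hhl : ∀ y, C.gate (hl y) = .and {z | ∃ x, z = ⟨B.vr x y, false⟩}) :
    Pv C [u] := by
  have hidx : ∀ x y, cu x * K + cv y < K * K := by
    intro x y
    have h1 := hcu x
    have h2 := hcv y
    calc cu x * K + cv y < cu x * K + K := by omega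
      _ = (cu x + 1) * K := by ring
      _ ≤ K * K := Nat.mul_le_mul_right K h1
  -- the pigeons
  have hP : ∀ s, s ≤ m + 1 → Pv C [tot s m (K * K) s, u] := by
    intro s
    induction s with
    | zero =>
      intro _
      exact ((htot 0 m (by omega) le_rfl).isCtr _ le_rfl).zero.one' (by simp [W]) fun α => by simp; tauto
    | succ s ih =>
      intro hs
      obtain ⟨hXs, hxs⟩ := hX s (by omega)
      have ih' := ih (by omega)
      have key : ∀ y, Pv C [⟨B.vr (px s) y, false⟩, tot (s + 1) m (K * K) (s + 1), u] := by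
        intro y
        have h1 := (htot s m (by omega) le_rfl).rl_up (htot (s + 1) m hs le_rfl)
          (s := [⟨B.vr (px s) y, false⟩, u]) (by simp) (hidx (px s) y)
          (fun r hr _ => (hcell s m r (by omega) le_rfl hr).mono (hcell (s + 1) m r hs le_rfl hr)
            (by rintro p ⟨h2, h3, h4⟩; exact ⟨by rw [hXs]; exact Or.inr h2, h3, h4⟩) (by simp))
          ((hcell s m _ (by omega) le_rfl (hidx _ _)).up (hcell (s + 1) m _ hs le_rfl (hidx _ _))
            (by rintro p ⟨h2, h3, h4⟩; exact ⟨by rw [hXs]; exact Or.inr h2, h3, h4⟩)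
            ⟨by rw [hXs]; exact Or.inl rfl, by rw [hYm]; trivial, rfl⟩
            (by rintro p ⟨h2, -, -⟩ h3; rw [h3] at h2; exact hxs h2) (by simp) (by simp) (u := u) (by simp)
            (hu s m _ (by omega) le_rfl (hidx _ _)))
          s (by omega) (by omega)
        rw [add_zero] at h1
        exact ih'.two' h1 (by simp [W]) fun α => by simp; tauto
      have h2 : Pv C [⟨pg (px s), true⟩, tot (s + 1) m (K * K) (s + 1), u] := by
        refine Pv.andI (hpg (px s)) ?_ (by simp [W])
        rintro _ ⟨y, rfl⟩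
        exact key y
      have h3 : Pv C [⟨pg (px s), false⟩] :=
        Pv.pig (px s) (hpg (px s)) fun y => ⟨_, B.vr_gate _ _, y, rfl⟩
      exact h2.two' h3 (by simp [W]) fun α => by simp; tauto
  -- the holes
  have hH : ∀ s, s ≤ m → Pv C [(tot (m + 1) s (K * K) (s + 1)).neg, u] := by
    intro s
    induction s with
    | zero =>
      intro _
      have h1 := (htot (m + 1) 0 le_rfl (by omega)).isNil (fun r hr => by
        have h2 := hcell (m + 1) 0 r le_rfl (by omega) hr
        have h3 : Rg cu cv K X Y (m + 1) 0 r = ∅ := by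
          ext p
          constructor
          · rintro ⟨-, h4, -⟩
            rw [hY0] at h4
            exact h4
          · intro h4; exact h4.elim
        rw [h3] at h2
        exact h2.isNil _) _ le_rfl 0 (by omega)
      exact h1.one' (by simp [W]) fun α => by simp; tauto
    | succ s ih =>
      intro hs
      have hYs := hY s (by omega)
      have ih' := ih (by omega)
      have key : ∀ x, Pv C [⟨B.vr x (hy s), false⟩, (tot (m + 1) (s + 1) (K * K) (s + 2)).neg, u] := by
        intro x
        have hD : ∀ r, ∀ p ∈ Rg cu cv K X Y (m + 1) (s + 1) r, p.2 ≠ hy s →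
            p ∈ Rg cu cv K X Y (m + 1) s r := by
          rintro r p ⟨h1, h2, h3⟩ h4
          rw [hYs] at h2
          rcases h2 with h2 | h2
          · exact absurd h2 h4
          · exact ⟨h1, h2, h3⟩
        have h1 := (htot (m + 1) (s + 1) le_rfl hs).rl_dn (htot (m + 1) s le_rfl (by omega))
          (s := [⟨B.vr x (hy s), false⟩, u]) (by simp) (hidx x (hy s))
          (fun r hr hne => (hcell (m + 1) s r le_rfl (by omega) hr).stay
            (hcell (m + 1) (s + 1) r le_rfl hs hr) (hD r)
            (by rintro ⟨-, -, h2⟩; exact hne h2.symm) (by simp) (by simp))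
          ((hcell (m + 1) s _ le_rfl (by omega) (hidx _ _)).down
            (hcell (m + 1) (s + 1) _ le_rfl hs (hidx _ _)) (hD _) (by simp))
          (s + 1) (by omega) (by omega)
        rw [add_zero] at h1
        exact ih'.two' h1 (by simp [W]) fun α => by simp; tauto
      have h2 : Pv C [⟨hl (hy s), true⟩, (tot (m + 1) (s + 1) (K * K) (s + 2)).neg, u] := by
        refine Pv.andI (hhl (hy s)) ?_ (by simp [W])
        rintro _ ⟨x, rfl⟩
        exact key x
      have h3 : Pv C [⟨hl (hy s), false⟩] :=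
        Pv.hol (hy s) (hhl (hy s)) fun x => ⟨_, B.vr_gate _ _, x, rfl⟩
      exact h2.two' h3 (by simp [W]) fun α => by simp; tauto
  exact (hP (m + 1) le_rfl).two' (hH m le_rfl) (by simp [W]) fun α => by simp; tauto

end Pool.Agent.H63.UB
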