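import Pool.Agent.H63.UB.Circ

/-!
# The refutation
-/

set_option autoImplicit false
set_option linter.unusedSectionVars false

namespace Pool.Agent.H63.UB

open Pool.Agent.H63.YL

variable {P H : Type} {D : Dat P H} [Finite {a : Nd D // Good a}]

/-- the basic nodes -/
noncomputable def bs (D : Dat P H) [Finite {a : Nd D // Good a}] : Base (Cc D) D.k where
  vr := fun x y => mk (.var x y)
  vr_gate := fun x y => gate_mk_var x y
  cj := fun μ => mk (.cj μ)
  cj_gate := by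
    intro μ hμ
    rw [gate_mk (a := (.cj μ : Nd D)) hμ rfl]
    congr 1
    ext z
    constructor
    · rintro ⟨_, ⟨p, hp, rfl⟩, rfl⟩
      exact ⟨p, hp, rfl⟩
    · rintro ⟨p, hp, rfl⟩
      exact ⟨_, ⟨p, hp, rfl⟩, rfl⟩
  top := mk .top
  top_gate := by
    rw [gate_mk (a := (.top : Nd D)) trivial rfl, Set.image_empty]

theorem mkL_neg (x : Lit (Nd D)) : (mkL x).neg = mkL x.neg := rfl

theorem cell_is (q : D.Q) {s s' r : ℕ} (hs : s ≤ D.m + 1) (hs' : s' ≤ D.m)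
    (hr : r < D.K * D.K) :
    IsCell (bs D) (Rg (D.cu q) (D.cv q) D.K (D.X q) (D.Y q) s s' r)
      (fun b => mkL (cellL q s s' r b)) := by
  refine ⟨fun T hT => ?_, fun T hT => ?_⟩
  · refine ⟨mk (.cell q s s' r T), ?_, ?_⟩
    · show mkL (cellL q s s' r T) = _
      unfold cellL
      rw [if_pos hT]
      rfl
    · rw [gate_mk (a := (.cell q s s' r T : Nd D)) ⟨hs, hs', hr, hT⟩ rfl]
      congr 1
      ext z
      constructor
      · rintro ⟨_, ⟨μ, h1, h2, h3, rfl⟩, rfl⟩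
        exact ⟨μ, h1, h2, h3, rfl⟩
      · rintro ⟨μ, h1, h2, h3, rfl⟩
        exact ⟨_, ⟨μ, h1, h2, h3, rfl⟩, rfl⟩
  · show mkL (cellL q s s' r T) = _
    unfold cellL
    rw [if_neg (by omega)]
    rfl

theorem sum_is (q : D.Q) {s s' r : ℕ} (hs : s ≤ D.m + 1) (hs' : s' ≤ D.m)
    (hr : r < D.K * D.K) :
    IsSum (Cc D) (D.m + 1) (fun a => mkL (totL q s s' r a)) (fun b => mkL (cellL q s s' r b))
      (fun a => mkL (totL q s s' (r + 1) a)) := by
  have hpr : ∀ a b, a ≤ D.m + 1 → b ≤ D.m + 1 → (Cc D).gate (mk (.pr q s s' r a b)) =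
      .and {z | z = mkL (totL q s s' r a) ∨ z = mkL (cellL q s s' r b)} := by
    intro a b ha hb
    rw [gate_mk (a := (.pr q s s' r a b : Nd D)) ⟨hs, hs', hr, ha, hb⟩ rfl]
    congr 1
    ext z
    constructor
    · rintro ⟨_, h | h, rfl⟩
      · exact Or.inl (by rw [h])
      · exact Or.inr (by rw [h])
    · rintro (rfl | rfl)
      · exact ⟨_, Or.inl rfl, rfl⟩
      · exact ⟨_, Or.inr rfl, rfl⟩
  have hsn : ∀ T, T ≤ D.m + 1 → (Cc D).gate (mk (.sn q s s' (r + 1) T)) =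
      .and {z | ∃ a b, a + b = T ∧ z = ⟨mk (.pr q s s' r a b), false⟩} := by
    intro T hT
    rw [gate_mk (a := (.sn q s s' (r + 1) T : Nd D)) ⟨hs, hs', hr, hT⟩ rfl]
    congr 1
    ext z
    constructor
    · rintro ⟨_, ⟨r', a, b, h1, h2, rfl⟩, rfl⟩
      obtain rfl : r' = r := by omega
      exact ⟨a, b, h2, rfl⟩
    · rintro ⟨a, b, h2, rfl⟩
      exact ⟨_, ⟨r, a, b, rfl, h2, rfl⟩, rfl⟩
  have htot : ∀ T, mkL (totL q s s' (r + 1) T) = ⟨mk (.sn q s s' (r + 1) T), false⟩ := by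
    intro T
    unfold totL
    rw [if_neg (by omega)]
    rfl
  refine ⟨fun a b hab => ?_, fun T hT σ hσ hyp => ?_⟩
  · show Pv _ [(mkL (totL q s s' r a)).neg, (mkL (cellL q s s' r b)).neg,
      mkL (totL q s s' (r + 1) (a + b))]
    rw [htot]
    have h1 : Pv (Cc D) [⟨mk (.sn q s s' (r + 1) (a + b)), false⟩,
        ⟨mk (.pr q s s' r a b), false⟩] :=
      Pv.andE (hsn (a + b) hab) ⟨a, b, rfl, rfl⟩
    have h2 : Pv (Cc D) [⟨mk (.pr q s s' r a b), true⟩, (mkL (totL q s s' r a)).neg,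
        (mkL (cellL q s s' r b)).neg] := by
      refine Pv.andI (hpr a b (by omega) (by omega)) ?_ (by simp [W])
      rintro z (rfl | rfl)
      · exact Pv.zero' (by simp [W]) fun α => by simp; tauto
      · exact Pv.zero' (by simp [W]) fun α => by simp; tauto
    exact h1.two' h2 (by simp [W]) fun α => by simp; tauto
  · show Pv _ ((mkL (totL q s s' (r + 1) T)).neg :: σ)
    rw [htot]
    refine Pv.andI (hsn T hT) ?_ (by simp [W]; omega)
    rintro _ ⟨a, b, hab, rfl⟩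
    have h1 : Pv (Cc D) [⟨mk (.pr q s s' r a b), false⟩, mkL (totL q s s' r a)] :=
      Pv.andE (hpr a b (by omega) (by omega)) (Or.inl rfl)
    have h2 : Pv (Cc D) [⟨mk (.pr q s s' r a b), false⟩, mkL (cellL q s s' r b)] :=
      Pv.andE (hpr a b (by omega) (by omega)) (Or.inr rfl)
    refine (hyp a b hab).of3 h1 h2 (fun α => ?_) (by simp [W]; omega)
    simp
    tauto

theorem tot_is (q : D.Q) {s s' : ℕ} (hs : s ≤ D.m + 1) (hs' : s' ≤ D.m) :
    IsTot (Cc D) (D.m + 1) (D.K * D.K) (fun r b => mkL (cellL q s s' r b))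
      (fun r a => mkL (totL q s s' r a)) := by
  have htop := (bs D).topI
  refine ⟨?_, ?_, fun r hr => (cell_is q hs hs' hr).isCtr _, fun r hr => sum_is q hs hs' hr⟩
  · show Pv _ [mkL (totL q s s' 0 0)]
    exact htop.one' (by simp [W]) fun α => by
      have : mkL (totL q s s' 0 0) = ⟨(bs D).top, true⟩ := rfl
      rw [this]; simp
  · intro T _
    show Pv _ [(mkL (totL q s s' 0 (T + 1))).neg]
    have : mkL (totL q s s' 0 (T + 1)) = ⟨(bs D).top, false⟩ := by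
      unfold totL
      rw [if_pos rfl, if_neg (by omega)]
      rfl
    rw [this]
    exact htop.one' (by simp [W]) fun α => by simp [Lit.neg]

/-- The conditions on the data. -/
structure Fit (D : Dat P H) : Prop where
  cu_lt : ∀ q x, D.cu q x < D.K
  cv_lt : ∀ q y, D.cv q y < D.K
  X_zero : ∀ q, D.X q 0 = ∅
  X_succ : ∀ q, ∃ px : ℕ → P, ∀ s, s < D.m + 1 → D.X q (s + 1) = insert (px s) (D.X q s) ∧
    px s ∉ D.X q s
  X_top : ∀ q, D.X q (D.m + 1) = Set.univ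
  Y_zero : ∀ q, D.Y q 0 = ∅
  Y_succ : ∀ q, ∃ hy : ℕ → H, ∀ s, s < D.m → D.Y q (s + 1) = insert (hy s) (D.Y q s)
  Y_top : ∀ q, D.Y q D.m = Set.univ
  uniq : ∀ q q' (μ : Finset (P × H)), Mt μ → μ.card = D.k + 1 → Common (D.cu q) (D.cv q) μ →
    Common (D.cu q') (D.cv q') μ → q = q'
  io_inj : ∀ a a' z z', D.io a z = D.io a' z' → a = a' ∧ z = z'
  enc_inj : Function.Injective D.enc

open Classical in
/-- every set of pigeons in a common cell has a name -/
def Named (D : Dat P H) : Prop :=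
  ∀ q (μ : Finset (P × H)), Mt μ → μ.card = D.k + 1 → Common (D.cu q) (D.cv q) μ →
    ∃ τ, D.st τ = μ.image Prod.fst

theorem hv_true (F : Fit D) (q : D.Q) : Pv (Cc D) [⟨mk (.hv q), false⟩] := by
  obtain ⟨px, hpx⟩ := F.X_succ q
  obtain ⟨hy, hhy⟩ := F.Y_succ q
  have hhv : (Cc D).gate (mk (.hv q)) = .and {z | ∃ μ : Finset (P × H), Mt μ ∧ μ.card = D.k + 1 ∧
      Common (D.cu q) (D.cv q) μ ∧ z = ⟨(bs D).cj μ, false⟩} := by
    rw [gate_mk (a := (.hv q : Nd D)) trivial rfl]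
    congr 1
    ext z
    constructor
    · rintro ⟨_, ⟨μ, h1, h2, h3, rfl⟩, rfl⟩
      exact ⟨μ, h1, h2, h3, rfl⟩
    · rintro ⟨μ, h1, h2, h3, rfl⟩
      exact ⟨_, ⟨μ, h1, h2, h3, rfl⟩, rfl⟩
  refine heavy (bs D) (F.cu_lt q) (F.cv_lt q) (F.X_zero q) hpx (F.X_top q) (F.Y_zero q) hhy
    (F.Y_top q) (cell := fun s s' r b => mkL (cellL q s s' r b))
    (tot := fun s s' r a => mkL (totL q s s' r a))
    (fun s s' r hs hs' hr => cell_is q hs hs' hr) (fun s s' hs hs' => tot_is q hs hs')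
    (u := ⟨mk (.hv q), false⟩) ?_ (pg := fun x => mk (.pg x)) ?_ (hl := fun y => mk (.hl y)) ?_
  · intro s s' r hs hs' hr
    refine (cell_is q hs hs' hr).elim (by simp) fun μ h1 h2 h3 _ => ?_
    refine (Pv.andE hhv ⟨μ, h1, h3, ?_, rfl⟩).one' (by simp [W]) fun α => by simp; tauto
    intro p hp p' hp'
    obtain ⟨-, -, h4⟩ := h2 hp
    obtain ⟨-, -, h5⟩ := h2 hp'
    have hK : D.cu q p.1 = D.cu q p'.1 := by
      have h6 := F.cv_lt q p.2
      have h7 := F.cv_lt q p'.2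
      have h8 : (D.cu q p.1 * D.K + D.cv q p.2) / D.K = (D.cu q p'.1 * D.K + D.cv q p'.2) / D.K := by
        rw [h4, h5]
      rw [mul_comm, Nat.mul_add_div (by omega), Nat.div_eq_of_lt h6, mul_comm,
        Nat.mul_add_div (by omega), Nat.div_eq_of_lt h7] at h8
      omega
    rw [hK] at h4 ⊢
    exact ⟨rfl, by omega⟩
  · intro x
    rw [gate_mk (a := (.pg x : Nd D)) trivial rfl]
    congr 1
    ext z
    constructor
    · rintro ⟨_, ⟨y, rfl⟩, rfl⟩
      exact ⟨y, rfl⟩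
    · rintro ⟨y, rfl⟩
      exact ⟨_, ⟨y, rfl⟩, rfl⟩
  · intro y
    rw [gate_mk (a := (.hl y : Nd D)) trivial rfl]
    congr 1
    ext z
    constructor
    · rintro ⟨_, ⟨x, rfl⟩, rfl⟩
      exact ⟨x, rfl⟩
    · rintro ⟨x, rfl⟩
      exact ⟨_, ⟨x, rfl⟩, rfl⟩

end Pool.Agent.H63.UB
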