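import Pool.Agent.H63.UB.Tool

/-!
# The weak pigeonhole principle (Paris, Wilkie, Woods)

`rho a z z'`: the signed node 'the pair `(a, z)` is mapped to `z'`', for a total and injective
relation between `Bool × T` and `T`. The empty line is derived from this.
-/

set_option autoImplicit false
set_option linter.unusedSectionVars false

namespace Pool.Agent.H63.UB

open Pool.Agent.H63.YL

variable {P H : Type}

/-- the atoms of a path: `(a, u, z)` says that `(a, u)` is mapped to `z` -/
def atoms {T : Type} : T → List (Bool × T) → List (Bool × T × T)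
  | _, [] => []
  | z, (a, u) :: l => (a, u, z) :: atoms u l

/-- the last element of a path -/
def lastOf {T : Type} : T → List (Bool × T) → T
  | z, [] => z
  | _, (_, u) :: l => lastOf u l

/-- the children of a segment -/
def Child {T : Type} (enc : T → List Bool) (s : T × List (Bool × T)) (b : Bool) (z : T) : Prop :=
  if b = false then enc z = s.2.map Prod.fst else lastOf s.1 s.2 = z

/-- the chains of segments which lead from `z` along the word `bs` to `e` -/
def Valid {T : Type} (enc : T → List Bool) (w : ℕ) : T → List Bool → T →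
    List (T × List (Bool × T)) → Prop
  | z, [], e, [] => z = e
  | z, b :: bs, e, s :: l => s.1 = z ∧ s.2.length = w ∧ ∃ z', Child enc s b z' ∧
      Valid enc w z' bs e l
  | _, _, _, _ => False

theorem Valid.length {T : Type} {enc : T → List Bool} {w : ℕ} : ∀ {z : T} {bs : List Bool} {e : T}
    {l : List (T × List (Bool × T))}, Valid enc w z bs e l → l.length = bs.length
  | _, [], _, [], _ => rfl
  | _, _ :: _, _, _ :: _, h => by
    obtain ⟨-, -, z', -, h1⟩ := h
    rw [List.length_cons, List.length_cons, h1.length]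
  | _, [], _, _ :: _, h => h.elim
  | _, _ :: _, _, [], h => h.elim

theorem Valid.seg {T : Type} {enc : T → List Bool} {w : ℕ} : ∀ {z : T} {bs : List Bool} {e : T}
    {l : List (T × List (Bool × T))}, Valid enc w z bs e l → ∀ s ∈ l, s.2.length = w
  | _, [], _, [], _ => by simp
  | _, _ :: _, _, _ :: _, h => by
    obtain ⟨-, h0, z', -, h1⟩ := h
    intro s hs
    rcases List.mem_cons.1 hs with rfl | hs
    · exact h0
    · exact h1.seg s hs
  | _, [], _, _ :: _, h => h.elim
  | _, _ :: _, _, [], h => h.elim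

theorem child_unique {T : Type} {enc : T → List Bool} (henc : Function.Injective enc)
    {s : T × List (Bool × T)} {b : Bool} {z z' : T} (h : Child enc s b z) (h' : Child enc s b z') :
    z = z' := by
  unfold Child at h h'
  split_ifs at h h' with hb
  · exact henc (h.trans h'.symm)
  · exact h.symm.trans h'

/-- two chains with different ends contain different segments with the same start -/
theorem Valid.diff {T : Type} {enc : T → List Bool} {w : ℕ} (henc : Function.Injective enc) :
    ∀ {z : T} {bs : List Bool} {e e' : T} {l l' : List (T × List (Bool × T))},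
      Valid enc w z bs e l → Valid enc w z bs e' l' → e ≠ e' →
      ∃ s ∈ l, ∃ s' ∈ l', s.1 = s'.1 ∧ s.2 ≠ s'.2 ∧ s.2.length = s'.2.length
  | _, [], _, _, [], [], h, h', he => absurd (h.symm.trans h') he
  | _, _ :: _, _, _, s :: l, s' :: l', h, h', he => by
    obtain ⟨h0, hw, z', h1, h2⟩ := h
    obtain ⟨h0', hw', z'', h1', h2'⟩ := h'
    by_cases hs : s = s'
    · subst hs
      have := child_unique henc h1 h1'
      subst this
      obtain ⟨t, ht, t', ht', h3⟩ := h2.diff henc h2' he
      exact ⟨t, List.mem_cons_of_mem _ ht, t', List.mem_cons_of_mem _ ht', h3⟩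
    · refine ⟨s, List.mem_cons_self, s', List.mem_cons_self, h0.trans h0'.symm, ?_,
        hw.trans hw'.symm⟩
      intro h3
      exact hs (Prod.ext (h0.trans h0'.symm) h3)
  | _, [], _, _, _ :: _, _, h, _, _ => h.elim
  | _, [], _, _, [], _ :: _, _, h, _ => h.elim
  | _, _ :: _, _, _, [], _, h, _, _ => h.elim
  | _, _ :: _, _, _, _ :: _, [], _, h, _ => h.elim

/-- two different segments with the same start contain contradictory atoms -/
theorem atoms_diff {T : Type} : ∀ {z : T} {l l' : List (Bool × T)}, l ≠ l' →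
    l.length = l'.length → ∃ a u a' u' v, (a, u, v) ∈ atoms z l ∧ (a', u', v) ∈ atoms z l' ∧
      (a, u) ≠ (a', u')
  | _, [], [], h, _ => absurd rfl h
  | z, (a, u) :: l, (a', u') :: l', h, hl => by
    by_cases h1 : (a, u) = (a', u')
    · obtain ⟨rfl, rfl⟩ := Prod.mk.inj h1
      have h2 : l ≠ l' := fun h2 => h (by rw [h2])
      have h3 : l.length = l'.length := by simpa using hl
      obtain ⟨b, v, b', v', x, h4, h5, h6⟩ := atoms_diff (z := u) h2 h3
      exact ⟨b, v, b', v', x, List.mem_cons_of_mem _ h4, List.mem_cons_of_mem _ h5, h6⟩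
    · exact ⟨a, u, a', u', z, List.mem_cons_self, List.mem_cons_self, h1⟩
  | _, [], _ :: _, _, hl => by simp at hl
  | _, _ :: _, [], _, hl => by simp at hl

/-- The nodes used in the proof. -/
structure PwwNodes (C : Circuit P H) (T : Type) where
  /-- the words which name the elements -/
  enc : T → List Bool
  /-- the length of the words -/
  w : ℕ
  enc_inj : Function.Injective enc
  enc_len : ∀ z, (enc z).length = w
  /-- the relation -/
  rho : Bool → T → T → Lit C.N
  tot : ∀ (a : Bool) (z : T) (s : List (Lit C.N)), s.length ≤ 40 →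
    (∀ z', Pv C ((rho a z z').neg :: s)) → Pv C s
  inj : ∀ (a a' : Bool) (z z' v : T), (a, z) ≠ (a', z') →
    Pv C [(rho a z v).neg, (rho a' z' v).neg]
  /-- two elements -/
  e₀ : T
  e₁ : T
  ne : e₀ ≠ e₁
  /-- the conjunctions of the atoms of a path -/
  pc : T → List (Bool × T) → C.N
  pc_gate : ∀ z l, l.length ≤ w →
    C.gate (pc z l) = .and {x | ∃ y ∈ atoms z l, x = rho y.1 y.2.1 y.2.2}
  /-- the conjunctions of the segments of a chain -/
  ch : List (T × List (Bool × T)) → C.N
  ch_gate : ∀ l, l.length ≤ w → (∀ s ∈ l, s.2.length = w) →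
    C.gate (ch l) = .and {x | ∃ s ∈ l, x = ⟨pc s.1 s.2, true⟩}
  /-- the value of `z` at the word `bs` is not `e` -/
  vn : List Bool → T → T → C.N
  vn_gate : ∀ bs z e, bs.length ≤ w →
    C.gate (vn bs z e) = .and {x | ∃ l, Valid enc w z bs e l ∧ x = ⟨ch l, false⟩}
  /-- the diagonal: the first half -/
  k₁ : List Bool → T → T → C.N
  k₁_gate : ∀ bs z i, bs.length ≤ w →
    C.gate (k₁ bs z i) = .and {⟨vn (enc i) i e₀, false⟩, ⟨vn bs z e₁, true⟩}
  /-- the diagonal: the second half -/
  k₀ : List Bool → T → T → C.N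
  k₀_gate : ∀ bs z i, bs.length ≤ w →
    C.gate (k₀ bs z i) = .and {⟨vn (enc i) i e₀, true⟩, ⟨vn bs z e₀, true⟩}
  /-- `z` represents the diagonal below the word `v` -/
  rp : List Bool → T → C.N
  rp_gate : ∀ v z, v.length ≤ w → C.gate (rp v z) =
    .and {x | ∃ i bs, enc i = v ++ bs ∧ (x = ⟨k₁ bs z i, false⟩ ∨ x = ⟨k₀ bs z i, false⟩)}
  /-- nothing represents the diagonal below the word `v` -/
  ex : List Bool → C.N
  ex_gate : ∀ v, v.length ≤ w → C.gate (ex v) = .and {x | ∃ z, x = ⟨rp v z, false⟩}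

namespace PwwNodes

variable {C : Circuit P H} {T : Type} (K : PwwNodes C T)

theorem pc_atom {z : T} {l : List (Bool × T)} (hl : l.length ≤ K.w) {y : Bool × T × T}
    (hy : y ∈ atoms z l) : Pv C [⟨K.pc z l, false⟩, K.rho y.1 y.2.1 y.2.2] :=
  Pv.andE (K.pc_gate z l hl) ⟨y, hy, rfl⟩

theorem pc_cons {z u : T} {a : Bool} {l : List (Bool × T)} (hl : l.length + 1 ≤ K.w) :
    Pv C [⟨K.pc z ((a, u) :: l), true⟩, (K.rho a u z).neg, ⟨K.pc u l, false⟩] := by
  refine Pv.andI (K.pc_gate z ((a, u) :: l) (by simpa using hl)) ?_ (by simp [W])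
  rintro x ⟨y, hy, rfl⟩
  rcases List.mem_cons.1 hy with rfl | hy
  · exact Pv.zero' (by simp [W]) fun α => by simp; tauto
  · exact (K.pc_atom (by omega) hy).one' (by simp [W]) fun α => by simp; tauto

/-- **Totality of pairs.** -/
theorem total_pair (h : T) : ∀ (bs : List Bool), bs.length ≤ K.w → ∀ (s : List (Lit C.N)),
    s.length ≤ 30 →
    (∀ z l, l.map Prod.fst = bs → lastOf z l = h → Pv C (⟨K.pc z l, false⟩ :: s)) → Pv C s
  | [], _, s, hs, hyp => by
    have h1 := hyp h [] rfl rfl
    have h2 : Pv C [⟨K.pc h [], true⟩] := by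
      refine Pv.andI (K.pc_gate h [] (Nat.zero_le _)) ?_ (by simp [W])
      rintro x ⟨y, hy, -⟩
      exact absurd hy List.not_mem_nil
    refine h2.of2 h1 (fun α => ?_) (by simp [W]; omega)
    simp
    tauto
  | a :: bs, hlen, s, hs, hyp => by
    rw [List.length_cons] at hlen
    refine total_pair h bs (by omega) s hs fun z l hl hlast => ?_
    refine K.tot a z _ (by simp; omega) fun z' => ?_
    have h1 := hyp z' ((a, z) :: l) (by rw [List.map_cons, hl]) hlast
    have hl' : l.length = bs.length := by rw [← hl, List.length_map]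
    have h2 := K.pc_cons (z := z') (u := z) (a := a) (l := l) (by omega)
    refine h1.of2 h2 (fun α => ?_) (by simp [W]; omega)
    simp
    tauto

theorem seg_diff {z : T} {l l' : List (Bool × T)} (hl : l.length ≤ K.w) (hl' : l'.length ≤ K.w)
    (h : l ≠ l') (hh : l.length = l'.length) : Pv C [⟨K.pc z l, false⟩, ⟨K.pc z l', false⟩] := by
  obtain ⟨a, u, a', u', v, h1, h2, h3⟩ := atoms_diff (z := z) h hh
  refine (K.pc_atom hl h1).three' (K.pc_atom hl' h2) (K.inj a a' u u' v h3) (by simp [W]) fun α => ?_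
  simp
  tauto

theorem ch_seg {l : List (T × List (Bool × T))} (hl : l.length ≤ K.w)
    (hs : ∀ s ∈ l, s.2.length = K.w) {s : T × List (Bool × T)} (h : s ∈ l) :
    Pv C [⟨K.ch l, false⟩, ⟨K.pc s.1 s.2, true⟩] :=
  Pv.andE (K.ch_gate l hl hs) ⟨s, h, rfl⟩

/-- the values are unique -/
theorem value_unique {bs : List Bool} (hbs : bs.length ≤ K.w) (z : T) {e e' : T} (h : e ≠ e') :
    Pv C [⟨K.vn bs z e, true⟩, ⟨K.vn bs z e', true⟩] := by
  refine Pv.andI (K.vn_gate bs z e hbs) ?_ (by simp [W])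
  rintro _ ⟨l, hl, rfl⟩
  have key : Pv C [⟨K.vn bs z e', true⟩, ⟨K.ch l, false⟩] := by
    refine Pv.andI (K.vn_gate bs z e' hbs) ?_ (by simp [W])
    rintro _ ⟨l', hl', rfl⟩
    obtain ⟨s, hs, s', hs', h1, h2, h3⟩ := hl.diff K.enc_inj hl' h
    have h4 := K.ch_seg (hl.length.le.trans hbs) hl.seg hs
    have h5 := K.ch_seg (hl'.length.le.trans hbs) hl'.seg hs'
    have h6 := K.seg_diff (z := s.1) (hl.seg s hs).le (hl'.seg s' hs').le h2 h3
    rw [← h1] at h5
    refine h4.three' h5 h6 (by simp [W]) fun α => ?_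
    simp
    tauto
  refine key.one' (by simp [W]) fun α => ?_
  simp
  tauto

/-- the step from the value of a child to the value of the node -/
theorem value_step {bs : List Bool} (hbs : bs.length + 1 ≤ K.w) {z z' : T} {b : Bool}
    {l : List (Bool × T)} (hl : l.length = K.w) (hc : Child K.enc (z, l) b z') (e : T) :
    Pv C [⟨K.vn bs z' e, true⟩, ⟨K.pc z l, false⟩, ⟨K.vn (b :: bs) z e, false⟩] := by
  refine Pv.andI (K.vn_gate bs z' e (by omega)) ?_ (by simp [W])
  rintro _ ⟨c, hc', rfl⟩
  have h1 : Valid K.enc K.w z (b :: bs) e ((z, l) :: c) := ⟨rfl, hl, z', hc, hc'⟩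
  have h2 : Pv C [⟨K.vn (b :: bs) z e, false⟩, ⟨K.ch ((z, l) :: c), false⟩] :=
    Pv.andE (K.vn_gate (b :: bs) z e (by simpa using hbs)) ⟨_, h1, rfl⟩
  have h3 : Pv C [⟨K.ch ((z, l) :: c), true⟩, ⟨K.pc z l, false⟩, ⟨K.ch c, false⟩] := by
    refine Pv.andI (K.ch_gate _ (by rw [h1.length]; simpa using hbs) h1.seg) ?_ (by simp [W])
    rintro _ ⟨s, hs, rfl⟩
    rcases List.mem_cons.1 hs with rfl | hs
    · exact Pv.zero' (by simp [W]) fun α => by simp; tauto
    · exact (K.ch_seg (by rw [hc'.length]; omega) hc'.seg hs).one' (by simp [W]) fun α => by simp; tauto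
  refine h2.two' h3 (by simp [W]) fun α => ?_
  simp
  tauto

theorem rp_one {v bs : List Bool} {i : T} (hi : K.enc i = v ++ bs) (z : T) :
    Pv C [⟨K.rp v z, false⟩, ⟨K.k₁ bs z i, false⟩] :=
  Pv.andE (K.rp_gate v z (by
    have := congrArg List.length hi
    rw [K.enc_len, List.length_append] at this; omega)) ⟨i, bs, hi, Or.inl rfl⟩

theorem rp_zero {v bs : List Bool} {i : T} (hi : K.enc i = v ++ bs) (z : T) :
    Pv C [⟨K.rp v z, false⟩, ⟨K.k₀ bs z i, false⟩] :=
  Pv.andE (K.rp_gate v z (by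
    have := congrArg List.length hi
    rw [K.enc_len, List.length_append] at this; omega)) ⟨i, bs, hi, Or.inr rfl⟩

/-- what `k₁` false means -/
theorem k₁_use {bs : List Bool} (hbs : bs.length ≤ K.w) (z i : T) :
    Pv C [⟨K.k₁ bs z i, true⟩, ⟨K.vn (K.enc i) i K.e₀, true⟩, ⟨K.vn bs z K.e₁, false⟩] := by
  refine Pv.andI (K.k₁_gate bs z i hbs) ?_ (by simp [W])
  rintro x (rfl | rfl)
  · exact Pv.zero' (by simp [W]) fun α => by simp; tauto
  · exact Pv.zero' (by simp [W]) fun α => by simp; tauto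

theorem k₀_use {bs : List Bool} (hbs : bs.length ≤ K.w) (z i : T) :
    Pv C [⟨K.k₀ bs z i, true⟩, ⟨K.vn (K.enc i) i K.e₀, false⟩, ⟨K.vn bs z K.e₀, false⟩] := by
  refine Pv.andI (K.k₀_gate bs z i hbs) ?_ (by simp [W])
  rintro x (rfl | rfl)
  · exact Pv.zero' (by simp [W]) fun α => by simp; tauto
  · exact Pv.zero' (by simp [W]) fun α => by simp; tauto

theorem k₁_E1 {bs : List Bool} (hbs : bs.length ≤ K.w) (z i : T) :
    Pv C [⟨K.k₁ bs z i, false⟩, ⟨K.vn (K.enc i) i K.e₀, false⟩] :=
  Pv.andE (K.k₁_gate bs z i hbs) (Or.inl rfl)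

theorem k₁_E2 {bs : List Bool} (hbs : bs.length ≤ K.w) (z i : T) :
    Pv C [⟨K.k₁ bs z i, false⟩, ⟨K.vn bs z K.e₁, true⟩] :=
  Pv.andE (K.k₁_gate bs z i hbs) (Or.inr rfl)

theorem k₀_E1 {bs : List Bool} (hbs : bs.length ≤ K.w) (z i : T) :
    Pv C [⟨K.k₀ bs z i, false⟩, ⟨K.vn (K.enc i) i K.e₀, true⟩] :=
  Pv.andE (K.k₀_gate bs z i hbs) (Or.inl rfl)

theorem k₀_E2 {bs : List Bool} (hbs : bs.length ≤ K.w) (z i : T) :
    Pv C [⟨K.k₀ bs z i, false⟩, ⟨K.vn bs z K.e₀, true⟩] :=
  Pv.andE (K.k₀_gate bs z i hbs) (Or.inr rfl)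

/-- the empty chain -/
theorem value_nil (e : T) : Pv C [⟨K.vn [] e e, false⟩] := by
  have h1 : Pv C [⟨K.vn [] e e, false⟩, ⟨K.ch [], false⟩] :=
    Pv.andE (K.vn_gate [] e e (Nat.zero_le _)) ⟨[], rfl, rfl⟩
  have h2 : Pv C [⟨K.ch [], true⟩] := by
    refine Pv.andI (K.ch_gate [] (Nat.zero_le _) (by simp)) ?_ (by simp [W])
    rintro _ ⟨s, hs, -⟩
    exact absurd hs List.not_mem_nil
  refine h1.two' h2 (by simp [W]) fun α => ?_
  simp
  tauto

theorem step_one {v bs : List Bool} {b : Bool} {i : T} (hi : K.enc i = v ++ b :: bs) {z z' : T}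
    {l : List (Bool × T)} (hl : l.length = K.w) (hc : Child K.enc (z, l) b z') :
    Pv C [⟨K.k₁ (b :: bs) z i, false⟩, ⟨K.pc z l, false⟩, ⟨K.rp (v ++ [b]) z', false⟩] := by
  have hlen := congrArg List.length hi
  rw [K.enc_len, List.length_append, List.length_cons] at hlen
  have h1 := K.k₁_E1 (bs := b :: bs) (by rw [List.length_cons]; omega) z i
  have h2 := K.k₁_E2 (bs := b :: bs) (by rw [List.length_cons]; omega) z i
  have h3 := K.value_step (bs := bs) (by omega) hl hc K.e₁
  have h4 := K.rp_one (v := v ++ [b]) (bs := bs) (i := i) (by simpa using hi) z'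
  have h5 := K.k₁_use (bs := bs) (by omega) z' i
  have h6 : Pv C [⟨K.k₁ (b :: bs) z i, false⟩, ⟨K.pc z l, false⟩, ⟨K.vn bs z' K.e₁, true⟩] :=
    h2.two' h3 (by simp [W]) fun α => by simp; tauto
  have h7 : Pv C [⟨K.rp (v ++ [b]) z', false⟩, ⟨K.vn (K.enc i) i K.e₀, true⟩,
      ⟨K.vn bs z' K.e₁, false⟩] :=
    h4.two' h5 (by simp [W]) fun α => by simp; tauto
  exact h1.three' h6 h7 (by simp [W]) fun α => by simp; tauto

theorem step_zero {v bs : List Bool} {b : Bool} {i : T} (hi : K.enc i = v ++ b :: bs) {z z' : T}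
    {l : List (Bool × T)} (hl : l.length = K.w) (hc : Child K.enc (z, l) b z') :
    Pv C [⟨K.k₀ (b :: bs) z i, false⟩, ⟨K.pc z l, false⟩, ⟨K.rp (v ++ [b]) z', false⟩] := by
  have hlen := congrArg List.length hi
  rw [K.enc_len, List.length_append, List.length_cons] at hlen
  have h1 := K.k₀_E1 (bs := b :: bs) (by rw [List.length_cons]; omega) z i
  have h2 := K.k₀_E2 (bs := b :: bs) (by rw [List.length_cons]; omega) z i
  have h3 := K.value_step (bs := bs) (by omega) hl hc K.e₀
  have h4 := K.rp_zero (v := v ++ [b]) (bs := bs) (i := i) (by simpa using hi) z'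
  have h5 := K.k₀_use (bs := bs) (by omega) z' i
  have h6 : Pv C [⟨K.k₀ (b :: bs) z i, false⟩, ⟨K.pc z l, false⟩, ⟨K.vn bs z' K.e₀, true⟩] :=
    h2.two' h3 (by simp [W]) fun α => by simp; tauto
  have h7 : Pv C [⟨K.rp (v ++ [b]) z', false⟩, ⟨K.vn (K.enc i) i K.e₀, false⟩,
      ⟨K.vn bs z' K.e₀, false⟩] :=
    h4.two' h5 (by simp [W]) fun α => by simp; tauto
  exact h1.three' h6 h7 (by simp [W]) fun α => by simp; tauto

theorem exE {v : List Bool} (hv : v.length ≤ K.w) (z : T) :
    Pv C [⟨K.ex v, false⟩, ⟨K.rp v z, false⟩] :=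
  Pv.andE (K.ex_gate v hv) ⟨z, rfl⟩

/-- **Everything has a representative.** -/
theorem exists_rp : ∀ (m : ℕ) (v : List Bool), v.length + m = K.w → Pv C [⟨K.ex v, false⟩]
  | 0, v, hv => by
    rw [add_zero] at hv
    have hnil : ∀ {i : T} {bs : List Bool}, K.enc i = v ++ bs → bs = [] := by
      intro i bs hi
      have := congrArg List.length hi
      rw [K.enc_len, List.length_append] at this
      exact List.eq_nil_of_length_eq_zero (by omega)
    by_cases h0 : ∃ i, K.enc i = v
    · obtain ⟨i, hi⟩ := h0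
      have huniq : ∀ {j : T} {bs : List Bool}, K.enc j = v ++ bs → j = i ∧ bs = [] := by
        intro j bs hj
        have h1 := hnil hj
        subst h1
        rw [List.append_nil] at hj
        exact ⟨K.enc_inj (hj.trans hi.symm), rfl⟩
      have h1 : Pv C [⟨K.rp v K.e₁, true⟩, ⟨K.vn (K.enc i) i K.e₀, true⟩] := by
        refine Pv.andI (K.rp_gate v _ hv.le) ?_ (by simp [W])
        rintro x ⟨j, bs, hj, hx⟩
        obtain ⟨rfl, rfl⟩ := huniq hj
        rcases hx with rfl | rfl
        · exact (K.k₁_E2 (bs := []) (Nat.zero_le _) K.e₁ j).two' (K.value_nil K.e₁)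
            (by simp [W]) fun α => by simp; tauto
        · exact (K.k₀_E1 (bs := []) (Nat.zero_le _) K.e₁ j).one' (by simp [W]) fun α => by simp
      have h2 : Pv C [⟨K.rp v K.e₀, true⟩, ⟨K.vn (K.enc i) i K.e₀, false⟩] := by
        refine Pv.andI (K.rp_gate v _ hv.le) ?_ (by simp [W])
        rintro x ⟨j, bs, hj, hx⟩
        obtain ⟨rfl, rfl⟩ := huniq hj
        rcases hx with rfl | rfl
        · exact (K.k₁_E1 (bs := []) (Nat.zero_le _) K.e₀ j).one' (by simp [W]) fun α => by simp
        · exact (K.k₀_E2 (bs := []) (Nat.zero_le _) K.e₀ j).two' (K.value_nil K.e₀)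
            (by simp [W]) fun α => by simp; tauto
      exact h1.four' h2 (K.exE hv.le K.e₁) (K.exE hv.le K.e₀) (by simp [W]) fun α => by simp; tauto
    · have h1 : Pv C [⟨K.rp v K.e₀, true⟩] := by
        refine Pv.andI (K.rp_gate v _ hv.le) ?_ (by simp [W])
        rintro x ⟨j, bs, hj, hx⟩
        have h1 := hnil hj
        subst h1
        rw [List.append_nil] at hj
        exact absurd ⟨j, hj⟩ h0
      exact h1.two' (K.exE hv.le K.e₀) (by simp [W]) fun α => by simp; tauto
  | m + 1, v, hv => by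
    have ih0 := exists_rp m (v ++ [false]) (by simp; omega)
    have ih1 := exists_rp m (v ++ [true]) (by simp; omega)
    have key : ∀ z₀ z₁, Pv C [⟨K.rp (v ++ [false]) z₀, false⟩, ⟨K.rp (v ++ [true]) z₁, false⟩,
        ⟨K.ex v, false⟩] := by
      intro z₀ z₁
      refine K.total_pair z₁ (K.enc z₀) (K.enc_len z₀).le _ (by simp) ?_
      intro z l hl hlast
      have hlw : l.length = K.w := by
        rw [← K.enc_len z₀, ← hl, List.length_map]
      have h1 : Pv C [⟨K.rp v z, true⟩, ⟨K.pc z l, false⟩, ⟨K.rp (v ++ [false]) z₀, false⟩,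
          ⟨K.rp (v ++ [true]) z₁, false⟩] := by
        refine Pv.andI (K.rp_gate v z (by omega)) ?_ (by simp [W])
        rintro x ⟨i, bs, hi, hx⟩
        have hlen := congrArg List.length hi
        rw [K.enc_len, List.length_append] at hlen
        rcases bs with _ | ⟨b, bs⟩
        · simp at hlen; omega
        rcases b with _ | _
        · have hc : Child K.enc (z, l) false z₀ := by
            unfold Child; rw [if_pos rfl]; exact hl.symm
          rcases hx with rfl | rfl
          · exact (K.step_one hi hlw hc).one' (by simp [W]) fun α => by simp; tauto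
          · exact (K.step_zero hi hlw hc).one' (by simp [W]) fun α => by simp; tauto
        · have hc : Child K.enc (z, l) true z₁ := by
            unfold Child; rw [if_neg (by simp)]; exact hlast
          rcases hx with rfl | rfl
          · exact (K.step_one hi hlw hc).one' (by simp [W]) fun α => by simp; tauto
          · exact (K.step_zero hi hlw hc).one' (by simp [W]) fun α => by simp; tauto
      have h5 := K.exE (v := v) (by omega) z
      exact h1.two' h5 (by simp [W]) fun α => by simp; tauto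
    have h2 : ∀ z₀, Pv C [⟨K.rp (v ++ [false]) z₀, false⟩, ⟨K.ex v, false⟩] := by
      intro z₀
      have h3 : Pv C [⟨K.ex (v ++ [true]), true⟩, ⟨K.rp (v ++ [false]) z₀, false⟩,
          ⟨K.ex v, false⟩] := by
        refine Pv.andI (K.ex_gate _ (by simp; omega)) ?_ (by simp [W])
        rintro _ ⟨z₁, rfl⟩
        exact (key z₀ z₁).one' (by simp [W]) fun α => by simp; tauto
      exact h3.two' ih1 (by simp [W]) fun α => by simp; tauto
    have h4 : Pv C [⟨K.ex (v ++ [false]), true⟩, ⟨K.ex v, false⟩] := by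
      refine Pv.andI (K.ex_gate _ (by simp; omega)) ?_ (by simp [W])
      rintro _ ⟨z₀, rfl⟩
      exact h2 z₀
    exact h4.two' ih0 (by simp [W]) fun α => by simp; tauto

include K in
/-- **The weak pigeonhole principle.** -/
theorem contra : Prov C ∅ := by
  have h1 := K.exists_rp K.w [] (by simp)
  have h2 : ∀ z, Pv C [⟨K.rp [] z, false⟩] := by
    intro z
    have hz : (K.enc z).length ≤ K.w := (K.enc_len z).le
    have e1 := K.rp_one (v := []) (bs := K.enc z) (i := z) rfl z
    have e2 := K.rp_zero (v := []) (bs := K.enc z) (i := z) rfl z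
    have e3 := K.k₁_use hz z z
    have e4 := K.k₀_use hz z z
    have e5 := K.value_unique hz z K.ne
    have e6 : Pv C [⟨K.rp [] z, false⟩, ⟨K.vn (K.enc z) z K.e₀, false⟩] :=
      e2.two' e4 (by simp [W]) fun α => by simp; tauto
    have e7 : Pv C [⟨K.rp [] z, false⟩, ⟨K.vn (K.enc z) z K.e₀, true⟩,
        ⟨K.vn (K.enc z) z K.e₁, false⟩] :=
      e1.two' e3 (by simp [W]) fun α => by simp; tauto
    exact e5.three' e6 e7 (by simp [W]) fun α => by simp; tauto
  have h3 : Pv C [⟨K.ex [], true⟩] := by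
    refine Pv.andI (K.ex_gate [] (Nat.zero_le _)) ?_ (by simp [W])
    rintro _ ⟨z, rfl⟩
    exact h2 z
  have h4 : Pv C [] := h3.cut h1 (Nat.zero_le _)
  have h5 : (Ln [] : Set (Lit C.N)) = ∅ := by ext x; simp [Ln]
  have h6 : Prov C (Ln []) := h4
  rwa [h5] at h6

end PwwNodes

end Pool.Agent.H63.UB
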