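import Pool.Agent.H63.UB.Inst

/-!
# The refutation: the weak pigeonhole principle
-/

set_option autoImplicit false
set_option linter.unusedSectionVars false

namespace Pool.Agent.H63.UB

open Pool.Agent.H63.YL

variable {P H : Type} {D : Dat P H} [Finite {a : Nd D // Good a}]

open Classical in
theorem rn_gate (q : D.Q) (τ : D.T) : (Cc D).gate (mk (.rn q τ)) =
    .and {z | ∃ μ : Finset (P × H), Mt μ ∧ μ.card = D.k + 1 ∧ Common (D.cu q) (D.cv q) μ ∧
      μ.image Prod.fst = D.st τ ∧ z = ⟨(bs D).cj μ, false⟩} := by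
  rw [gate_mk (a := (.rn q τ : Nd D)) trivial rfl]
  congr 1
  ext z
  constructor
  · rintro ⟨_, ⟨μ, h1, h2, h3, h4, rfl⟩, rfl⟩
    exact ⟨μ, h1, h2, h3, h4, rfl⟩
  · rintro ⟨μ, h1, h2, h3, h4, rfl⟩
    exact ⟨_, ⟨μ, h1, h2, h3, h4, rfl⟩, rfl⟩

theorem hv_gate (q : D.Q) : (Cc D).gate (mk (.hv q)) =
    .and {z | ∃ μ : Finset (P × H), Mt μ ∧ μ.card = D.k + 1 ∧ Common (D.cu q) (D.cv q) μ ∧
      z = ⟨(bs D).cj μ, false⟩} := by
  rw [gate_mk (a := (.hv q : Nd D)) trivial rfl]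
  congr 1
  ext z
  constructor
  · rintro ⟨_, ⟨μ, h1, h2, h3, rfl⟩, rfl⟩
    exact ⟨μ, h1, h2, h3, rfl⟩
  · rintro ⟨μ, h1, h2, h3, rfl⟩
    exact ⟨_, ⟨μ, h1, h2, h3, rfl⟩, rfl⟩

/-- the nodes of the proof of the weak pigeonhole principle -/
noncomputable def pww (F : Fit D) (hN : Named D) : PwwNodes (Cc D) (Bool ⊕ D.T) where
  enc := D.enc
  w := D.w
  enc_inj := F.enc_inj
  enc_len := D.enc_len
  rho := fun a z z' => mkL (rhoL a z z')
  tot := by
    intro a z s hs hyp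
    exact spread_tot (bs D) (hv_gate (D.io a z)) (hv_true F (D.io a z)) (hN (D.io a z))
      (rn := fun τ => mk (.rn (D.io a z) τ)) (rn_gate (D.io a z)) hs (fun τ => hyp (Sum.inr τ))
  inj := by
    intro a a' z z' v h
    rcases v with v | τ
    · exact (bs D).topI.one' (by simp [W]) fun α => by
        have e : ∀ b y, mkL (rhoL b y (Sum.inl v)) = (⟨(bs D).top, false⟩ : Lit (Cc D).N) :=
          fun b y => rfl
        rw [e, e]
        simp [Lit.neg]
    · refine spread_inj (bs D) (cu := D.cu (D.io a z)) (cv := D.cv (D.io a z))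
        (cu' := D.cu (D.io a' z')) (cv' := D.cv (D.io a' z')) ?_ (X := D.st τ)
        (rn_gate (D.io a z) τ) (rn_gate (D.io a' z') τ)
      intro μ h1 h2 h3 h4
      obtain ⟨h5, h6⟩ := F.io_inj a a' z z' (F.uniq _ _ μ h1 h2 h3 h4)
      exact h (by rw [h5, h6])
  e₀ := Sum.inl false
  e₁ := Sum.inl true
  ne := by simp
  pc := fun z l => mk (.pc z l)
  pc_gate := by
    intro z l hl
    rw [gate_mk (a := (.pc z l : Nd D)) hl rfl]
    congr 1
    ext x
    constructor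
    · rintro ⟨_, ⟨y, hy, rfl⟩, rfl⟩
      exact ⟨y, hy, rfl⟩
    · rintro ⟨y, hy, rfl⟩
      exact ⟨_, ⟨y, hy, rfl⟩, rfl⟩
  ch := fun l => mk (.ch l)
  ch_gate := by
    intro l hl hs
    rw [gate_mk (a := (.ch l : Nd D)) ⟨hl, hs⟩ rfl]
    congr 1
    ext x
    constructor
    · rintro ⟨_, ⟨y, hy, rfl⟩, rfl⟩
      exact ⟨y, hy, rfl⟩
    · rintro ⟨y, hy, rfl⟩
      exact ⟨_, ⟨y, hy, rfl⟩, rfl⟩
  vn := fun b z e => mk (.vn b z e)
  vn_gate := by
    intro b z e hb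
    rw [gate_mk (a := (.vn b z e : Nd D)) hb rfl]
    congr 1
    ext x
    constructor
    · rintro ⟨_, ⟨y, hy, rfl⟩, rfl⟩
      exact ⟨y, hy, rfl⟩
    · rintro ⟨y, hy, rfl⟩
      exact ⟨_, ⟨y, hy, rfl⟩, rfl⟩
  k₁ := fun b z i => mk (.kk true b z i)
  k₁_gate := by
    intro b z i hb
    rw [gate_mk (a := (.kk true b z i : Nd D)) hb rfl]
    congr 1
    ext x
    constructor
    · rintro ⟨_, rfl | rfl, rfl⟩
      · exact Or.inl rfl
      · exact Or.inr rfl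
    · rintro (rfl | rfl)
      · exact ⟨_, Or.inl rfl, rfl⟩
      · exact ⟨_, Or.inr rfl, rfl⟩
  k₀ := fun b z i => mk (.kk false b z i)
  k₀_gate := by
    intro b z i hb
    rw [gate_mk (a := (.kk false b z i : Nd D)) hb rfl]
    congr 1
    ext x
    constructor
    · rintro ⟨_, rfl | rfl, rfl⟩
      · exact Or.inl rfl
      · exact Or.inr rfl
    · rintro (rfl | rfl)
      · exact ⟨_, Or.inl rfl, rfl⟩
      · exact ⟨_, Or.inr rfl, rfl⟩
  rp := fun v z => mk (.rp v z)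
  rp_gate := by
    intro v z hv
    rw [gate_mk (a := (.rp v z : Nd D)) hv rfl]
    congr 1
    ext x
    constructor
    · rintro ⟨_, ⟨i, b, hi, rfl | rfl⟩, rfl⟩
      · exact ⟨i, b, hi, Or.inl rfl⟩
      · exact ⟨i, b, hi, Or.inr rfl⟩
    · rintro ⟨i, b, hi, rfl | rfl⟩
      · exact ⟨_, ⟨i, b, hi, Or.inl rfl⟩, rfl⟩
      · exact ⟨_, ⟨i, b, hi, Or.inr rfl⟩, rfl⟩
  ex := fun v => mk (.ex v)
  ex_gate := by
    intro v hv
    rw [gate_mk (a := (.ex v : Nd D)) hv rfl]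
    congr 1
    ext x
    constructor
    · rintro ⟨_, ⟨z, rfl⟩, rfl⟩
      exact ⟨z, rfl⟩
    · rintro ⟨z, rfl⟩
      exact ⟨_, ⟨z, rfl⟩, rfl⟩

/-- **The empty line is provable.** -/
theorem prov_empty (F : Fit D) (hN : Named D) : Prov (Cc D) ∅ := (pww F hN).contra

end Pool.Agent.H63.UB
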