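import Pool.Agent.H63.UB.Blk
import Pool.Agent.H63.UB.Sym
import Pool.Agent.H63.UB.Card
import Pool.Agent.H63.UB.Pw

/-!
# Short refutations with blocks of size about the square root
-/

set_option autoImplicit false
set_option linter.unusedSectionVars false

namespace Pool.Agent.H63.UB

open Finset Pool.Agent.H63.YL

/-- the names of the sets of pigeons: the sets which lie in one strip -/
def TT (A : Par) (n k : ℕ) : Type :=
  {X : Finset (Fin (n + 1)) // X.card = k + 1 ∧ ∃ j < A.S, ∀ x ∈ X, (x : ℕ) < A.w * A.p ∧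
    A.strip ((x : ℕ) / A.p) = j}

noncomputable instance (A : Par) (n k : ℕ) : Fintype (TT A n k) := by
  classical
  unfold TT
  infer_instance

theorem card_TT (A : Par) (n k : ℕ) :
    Fintype.card (TT A n k) ≤ A.S * (2 * A.L * A.p) ^ (k + 1) := by
  classical
  let str : ℕ → Finset (Fin (n + 1)) := fun j =>
    univ.filter fun x => (x : ℕ) < A.w * A.p ∧ A.strip ((x : ℕ) / A.p) = j
  have hstr : ∀ j, (str j).card ≤ 2 * A.L * A.p := by
    intro j
    have h1 : (str j).image (fun x : Fin (n + 1) => (x : ℕ)) ⊆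
        Ico (j * A.L * A.p) ((j + 2) * A.L * A.p) := by
      intro y hy
      obtain ⟨x, hx, rfl⟩ := mem_image.1 hy
      obtain ⟨-, h2, h3⟩ := mem_filter.1 hx
      have h4 := A.strip_le (u := (x : ℕ) / A.p)
      have h5 := A.lt_strip (Par.row_lt h2)
      rw [h3] at h4 h5
      rw [mem_Ico]
      refine ⟨?_, ?_⟩
      · exact (Nat.mul_le_mul_right _ h4).trans (Nat.div_mul_le_self _ _)
      · exact (Nat.div_lt_iff_lt_mul A.prime.pos).1 h5
    have h2 := card_le_card h1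
    rw [card_image_of_injective _ Fin.val_injective, Nat.card_Ico] at h2
    have h3 : (j + 2) * A.L * A.p = j * A.L * A.p + 2 * A.L * A.p := by ring
    omega
  have h1 : Fintype.card (TT A n k) ≤ ((range A.S).biUnion fun j => powersetCard (k + 1) (str j)).card := by
    have hinj : Function.Injective (fun X : TT A n k => (X.1 : Finset (Fin (n + 1)))) :=
      fun X Y h => Subtype.ext h
    rw [← card_univ, ← card_image_of_injective (univ : Finset (TT A n k)) hinj]
    refine card_le_card ?_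
    intro Y hY
    obtain ⟨X, -, rfl⟩ := mem_image.1 hY
    obtain ⟨X, h1, j, hj, h2⟩ := X
    refine mem_biUnion.2 ⟨j, mem_range.2 hj, mem_powersetCard.2 ⟨?_, h1⟩⟩
    intro x hx
    exact mem_filter.2 ⟨mem_univ _, h2 x hx⟩
  refine h1.trans (card_biUnion_le.trans ?_)
  calc ∑ j ∈ range A.S, (powersetCard (k + 1) (str j)).card
      ≤ ∑ _j ∈ range A.S, (2 * A.L * A.p) ^ (k + 1) := by
        refine sum_le_sum fun j _ => ?_
        rw [card_powersetCard]
        exact (Nat.choose_le_pow _ _).trans (Nat.pow_le_pow_left (hstr j) _)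
    _ = A.S * (2 * A.L * A.p) ^ (k + 1) := by rw [sum_const, card_range, smul_eq_mul]

/-- the pairs of partitions -/
abbrev QQ (A : Par) (k : ℕ) : Type := (Fin k → ZMod A.p) × (Fin k → ZMod A.p)

theorem card_QQ (A : Par) (k : ℕ) : Fintype.card (QQ A k) = A.p ^ k * A.p ^ k := by
  rw [Fintype.card_prod, Fintype.card_fun, ZMod.card, Fintype.card_fin]

theorem card_ineq {A : Par} {n k : ℕ} (hn : A.w * A.p ≤ n) (hk1 : 1 ≤ k) (hk : 8 * n ≤ 2 ^ k) :
    2 * (Fintype.card (TT A n k) + 2) ≤ Fintype.card (QQ A k) := by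
  rw [card_QQ]
  have h1 := card_TT A n k
  have h2 : A.S * (2 * A.L * A.p) ^ (k + 1) ≤ 2 * n * (2 * A.L * A.p) ^ k := by
    calc A.S * (2 * A.L * A.p) ^ (k + 1) = 2 * ((A.S * A.L) * A.p) * (2 * A.L * A.p) ^ k := by ring
      _ ≤ 2 * (A.w * A.p) * (2 * A.L * A.p) ^ k :=
          Nat.mul_le_mul_right _ (Nat.mul_le_mul_left _ (Nat.mul_le_mul_right _ A.S_mul))
      _ ≤ 2 * n * (2 * A.L * A.p) ^ k := Nat.mul_le_mul_right _ (Nat.mul_le_mul_left _ hn)
  have hLp := A.hLp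
  have h3 : 4 * Fintype.card (TT A n k) ≤ A.p ^ k * A.p ^ k := by
    calc 4 * Fintype.card (TT A n k) ≤ 4 * (2 * n * (2 * A.L * A.p) ^ k) :=
          Nat.mul_le_mul_left _ (h1.trans h2)
      _ = 8 * n * (2 * A.L * A.p) ^ k := by ring
      _ ≤ 2 ^ k * (2 * A.L * A.p) ^ k := Nat.mul_le_mul_right _ hk
      _ = (4 * A.L * A.p) ^ k := by rw [← mul_pow]; congr 1; ring
      _ ≤ (A.p * A.p) ^ k := Nat.pow_le_pow_left (Nat.mul_le_mul_right _ hLp.le) _
      _ = A.p ^ k * A.p ^ k := mul_pow _ _ _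
  have hL := A.hL
  have h4 : 5 ≤ A.p ^ k := by
    calc 5 ≤ A.p := by omega
      _ = A.p ^ 1 := (pow_one _).symm
      _ ≤ A.p ^ k := Nat.pow_le_pow_right (by omega) hk1
  have h5 : 5 * 5 ≤ A.p ^ k * A.p ^ k := Nat.mul_le_mul h4 h4
  omega

/-- **The data.** -/
theorem exists_dat (A : Par) {n k w : ℕ} (hn1 : 1 ≤ n) (hAw : A.w = n / A.p) (hk1 : 1 ≤ k)
    (hk : 8 * n ≤ 2 ^ k) (hw : Fintype.card (QQ A k) ≤ 2 ^ w) :
    ∃ D : Dat (Fin (n + 1)) (Fin n), D.k = k ∧ D.K = 2 * n + 1 ∧ D.m = n ∧ D.w = w ∧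
      (∃ _ : Fintype D.Q, Fintype.card D.Q ≤ 2 ^ w) ∧
      (∃ _ : Fintype D.T, Fintype.card D.T + 2 ≤ 2 ^ w) ∧ Fit D ∧ Named D ∧
      ∀ (q : D.Q) (s s' : ℕ), s ≤ D.m + 1 → s' ≤ D.m → ∃ (u : Fin (n + 1) → ℕ) (v : Fin n → ℕ),
        (∀ x x', u x = u x' → D.cu q x = D.cu q x' ∧ (x ∈ D.X q s ↔ x' ∈ D.X q s)) ∧
        (∀ y y', v y = v y' → D.cv q y = D.cv q y' ∧ (y ∈ D.Y q s' ↔ y' ∈ D.Y q s')) ∧
        rare u A.L + rare v A.L ≤ 2 * (A.p + 2 * A.L) := by
  classical
  have hp := A.prime.pos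
  have hwp : A.w * A.p ≤ n := by rw [hAw]; exact Nat.div_mul_le_self _ _
  have hwp' : n < A.w * A.p + A.p := by
    rw [hAw]
    have := Nat.lt_div_mul_add (a := n) hp
    exact this
  have hineq := card_ineq hwp hk1 hk
  have hU : Fintype.card (Bool ⊕ TT A n k) = Fintype.card (TT A n k) + 2 := by
    rw [Fintype.card_sum, Fintype.card_bool]; omega
  -- the names of the pairs of partitions
  obtain ⟨ι⟩ : Nonempty (Bool × (Bool ⊕ TT A n k) ↪ QQ A k) := by
    apply Function.Embedding.nonempty_of_card_le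
    rw [Fintype.card_prod, Fintype.card_bool, hU]
    exact hineq
  -- the words
  obtain ⟨ε⟩ : Nonempty ((Bool ⊕ TT A n k) ↪ (Fin w → Bool)) := by
    apply Function.Embedding.nonempty_of_card_le
    rw [hU, Fintype.card_fun, Fintype.card_bool, Fintype.card_fin]
    omega
  let D : Dat (Fin (n + 1)) (Fin n) :=
    { k := k
      K := 2 * n + 1
      m := n
      w := w
      Q := QQ A k
      T := TT A n k
      cu := fun q x => A.col q.1 x
      cv := fun q y => A.col q.2 y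
      X := fun q s => Stg (fun x : Fin (n + 1) => A.col q.1 x) s
      Y := fun q s => Stg (fun y : Fin n => A.col q.2 y) s
      st := fun τ => τ.1
      io := fun a z => ι (a, z)
      enc := fun z => List.ofFn (ε z)
      enc_len := fun z => List.length_ofFn }
  have hcol : ∀ (a : Fin k → ZMod A.p) (x : ℕ), x ≤ n → A.col a x < 2 * n + 1 := by
    intro a x hx
    by_cases h : x < A.w * A.p
    · have := Par.col_main_lt (a := a) h
      omega
    · rw [Par.col_rest h]; omega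
  have hfst : ∀ μ : Finset (Fin (n + 1) × Fin n), Mt μ →
      Set.InjOn (fun p : Fin (n + 1) × Fin n => p.1) (μ : Set (Fin (n + 1) × Fin n)) :=
    fun μ hμ p hp q hq h => hμ p hp q hq (Or.inl h)
  have hsnd : ∀ μ : Finset (Fin (n + 1) × Fin n), Mt μ →
      Set.InjOn (fun p : Fin (n + 1) × Fin n => p.2) (μ : Set (Fin (n + 1) × Fin n)) :=
    fun μ hμ p hp q hq h => hμ p hp q hq (Or.inr h)
  refine ⟨D, rfl, rfl, rfl, rfl, ⟨(inferInstance : Fintype (QQ A k)), hw⟩,
    ⟨(inferInstance : Fintype (TT A n k)), ?_⟩, ?_, ?_, ?_⟩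
  · show Fintype.card (TT A n k) + 2 ≤ 2 ^ w
    omega
  · refine ⟨?_, ?_, ?_, ?_, ?_, ?_, ?_, ?_, ?_, ?_, ?_⟩
    · intro q x
      exact hcol q.1 x (by have := x.2; omega)
    · intro q y
      exact hcol q.2 y (by have := y.2; omega)
    · intro q; exact stg_zero _
    · intro q
      refine ⟨fun s => if h : s < n + 1 then
        Tuple.sort (fun x : Fin (n + 1) => A.col q.1 x) ⟨s, h⟩ else 0, fun s hs => ?_⟩
      have hs' : s < n + 1 := hs
      dsimp only
      rw [dif_pos hs']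
      exact stg_succ _ hs'
    · intro q; exact stg_top _
    · intro q; exact stg_zero _
    · intro q
      refine ⟨fun s => if h : s < n then
        Tuple.sort (fun y : Fin n => A.col q.2 y) ⟨s, h⟩ else ⟨0, hn1⟩, fun s hs => ?_⟩
      have hs' : s < n := hs
      dsimp only
      rw [dif_pos hs']
      exact (stg_succ _ hs').1
    · intro q; exact stg_top _
    · rintro ⟨a, b⟩ ⟨a', b'⟩ μ h1 h2 h3 h4
      have h2' : μ.card = k + 1 := h2
      have e1 : a = a' := by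
        refine Par.coef_unique hk1 (Z := μ.image fun p => (p.1 : ℕ)) ?_ ?_ ?_
        · rw [card_image_of_injOn]
          · omega
          · intro p hp q hq h
            exact hfst μ h1 hp hq (Fin.ext h)
        · intro x hx y hy
          obtain ⟨p, hp, rfl⟩ := mem_image.1 hx
          obtain ⟨q, hq, rfl⟩ := mem_image.1 hy
          exact (h3 p hp q hq).1
        · intro x hx y hy
          obtain ⟨p, hp, rfl⟩ := mem_image.1 hx
          obtain ⟨q, hq, rfl⟩ := mem_image.1 hy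
          exact (h4 p hp q hq).1
      have e2 : b = b' := by
        refine Par.coef_unique hk1 (Z := μ.image fun p => (p.2 : ℕ)) ?_ ?_ ?_
        · rw [card_image_of_injOn]
          · omega
          · intro p hp q hq h
            exact hsnd μ h1 hp hq (Fin.ext h)
        · intro x hx y hy
          obtain ⟨p, hp, rfl⟩ := mem_image.1 hx
          obtain ⟨q, hq, rfl⟩ := mem_image.1 hy
          exact (h3 p hp q hq).2
        · intro x hx y hy
          obtain ⟨p, hp, rfl⟩ := mem_image.1 hx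
          obtain ⟨q, hq, rfl⟩ := mem_image.1 hy
          exact (h4 p hp q hq).2
      rw [e1, e2]
    · intro a a' z z' h
      have h1 : (a, z) = (a', z') := ι.injective h
      exact ⟨congrArg Prod.fst h1, congrArg Prod.snd h1⟩
    · intro z z' h
      exact ε.injective (List.ofFn_injective h)
  · -- names
    intro q μ h1 h2 h3
    have h2' : μ.card = k + 1 := h2
    have hmain : ∀ p ∈ μ, (p.1 : ℕ) < A.w * A.p := by
      intro p hp
      obtain ⟨p', hp', hne⟩ : ∃ p' ∈ μ, p' ≠ p := by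
        by_contra hcon
        push Not at hcon
        have h4 : μ ⊆ {p} := fun y hy => mem_singleton.2 (hcon y hy)
        have h5 := card_le_card h4
        rw [card_singleton] at h5
        omega
      exact Par.main_of_eq (h3 p hp p' hp').1 fun h => hne (h1 p' hp' p hp (Or.inl (Fin.ext h.symm)))
    obtain ⟨p₀, hp₀⟩ : μ.Nonempty := by rw [← card_pos]; omega
    refine ⟨⟨μ.image Prod.fst, ?_, A.strip ((p₀.1 : ℕ) / A.p), A.strip_lt _, ?_⟩, ?_⟩
    · rw [card_image_of_injOn (hfst μ h1)]; exact h2'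
    · intro x hx
      obtain ⟨p, hp, rfl⟩ := mem_image.1 hx
      exact ⟨hmain p hp, (Par.eq_col (hmain p hp) (hmain _ hp₀) (h3 p hp _ hp₀).1).1⟩
    · show μ.image Prod.fst = _
      ext x
      simp only [mem_image]
  · intro q s s' hs hs'
    have hs1 : s ≤ n + 1 := hs
    have hs1' : s' ≤ n := hs'
    refine ⟨Par.ucol q.1 s, Par.ucol q.2 s', ?_, ?_, ?_⟩
    · intro x x' h
      exact Par.ucol_eq.1 h
    · intro y y' h
      exact Par.ucol_eq.1 h
    · have e1 := Par.rare_ucol (A := A) (N := n + 1) (by omega) (by omega) q.1 hs1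
      have e2 := Par.rare_ucol (A := A) (N := n) hwp (by omega) q.2 hs1'
      omega

/-- **Short refutations.** -/
theorem short {n L : ℕ} (hL : 1 ≤ L) (hn : 64 * L ^ 2 ≤ n) :
    ∃ R : Refutation (Fin (n + 1)) (Fin n), (∀ Λ ∈ R.lines, R.C.BuiltLine L (20 * L) 9 Λ) ∧
      R.size ≤ 2 ^ (Nat.log 2 n + 1) ^ 14 := by
  classical
  have hL2 : L ≤ L ^ 2 := by
    calc L = L ^ 1 := (pow_one _).symm
      _ ≤ L ^ 2 := Nat.pow_le_pow_right hL (by norm_num)
  obtain ⟨p, hp, hp1, hp2⟩ := Nat.exists_prime_lt_and_le_two_mul (4 * L) (by omega)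
  have hLp : L ≤ n / p := by
    rw [Nat.le_div_iff_mul_le hp.pos]
    calc L * p ≤ L * (2 * (4 * L)) := Nat.mul_le_mul_left _ hp2
      _ = 8 * L ^ 2 := by ring
      _ ≤ n := by omega
  obtain ⟨A, hAL, hAw, hAp⟩ : ∃ A : Par, A.L = L ∧ A.w = n / p ∧ A.p = p :=
    ⟨⟨L, n / p, p, hp, hL, hLp, hp1⟩, rfl, rfl, rfl⟩
  obtain ⟨ℓ, hℓ⟩ : ∃ ℓ, ℓ = Nat.log 2 n + 1 := ⟨_, rfl⟩
  have hnℓ : n < 2 ^ ℓ := by rw [hℓ]; exact Nat.lt_pow_succ_log_self (by norm_num) n
  have hℓ7 : 7 ≤ ℓ := by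
    rw [hℓ]
    have h1 : 6 ≤ Nat.log 2 n := by
      refine Nat.le_log_of_pow_le (by norm_num) ?_
      calc 2 ^ 6 = 64 * 1 := by norm_num
        _ ≤ 64 * L ^ 2 := Nat.mul_le_mul_left _ (by omega)
        _ ≤ n := hn
    omega
  obtain ⟨k, hk⟩ : ∃ k, k = ℓ + 4 := ⟨_, rfl⟩
  have hk2 : 16 * n + 16 ≤ 2 ^ k := by
    rw [hk, pow_add]
    have : n + 1 ≤ 2 ^ ℓ := hnℓ
    omega
  obtain ⟨w, hw⟩ : ∃ w, w = 2 * k ^ 2 := ⟨_, rfl⟩
  have hpn : p ≤ n := by omega
  have hkw : k ≤ w := by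
    rw [hw]
    calc k = k ^ 1 := (pow_one _).symm
      _ ≤ k ^ 2 := Nat.pow_le_pow_right (by omega) (by norm_num)
      _ ≤ 2 * k ^ 2 := by omega
  have hcQ : Fintype.card (QQ A k) ≤ 2 ^ w := by
    rw [card_QQ, ← pow_add]
    rw [hAp]
    calc p ^ (k + k) ≤ (2 ^ k) ^ (k + k) := Nat.pow_le_pow_left (by omega) _
      _ = 2 ^ w := by rw [← pow_mul, hw]; congr 1; ring
  obtain ⟨D, hDk, hDK, hDm, hDw, ⟨fQ, hQ⟩, ⟨fT, hT⟩, F, hN, hhom⟩ :=
    exists_dat A (n := n) (k := k) (w := w) (by omega) (by rw [hAw, hAp]) (by omega) (by omega) hcQ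
  have hfin : Finite {a : Nd D // Good a} := finite_good D
  have hP := prov_empty F hN
  have h2w : 2 ^ k ≤ 2 ^ w := Nat.pow_le_pow_right (by norm_num) hkw
  have hcard : Nat.card (Cc D).N ≤ 2 ^ (11 * w ^ 3) := by
    rw [← hDw]
    refine card_good (D := D) rfl (by rw [hDw]; omega) (by rw [hDw]; exact hQ)
      (by rw [hDw]; exact hT) ?_ ?_ ?_ ?_ ?_
    · rw [hDw, Fintype.card_fin]; omega
    · rw [hDw, Fintype.card_fin]; omega
    · rw [hDw, hDm]; omega
    · rw [hDw, hDK]; omega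
    · rw [hDw, hDk, hw]
      have h1 : 2 * k ≤ k ^ 2 := by
        rw [pow_two]; exact Nat.mul_le_mul_right _ (by omega)
      omega
  refine ⟨Rf (Cc D) hP, ?_, ?_⟩
  · intro Λ _
    right
    intro x _
    have h1 := built_all (D := D) (L := L) (r := 20 * L) ?_ x.node
    · exact h1
    · intro q s s' hs hs'
      obtain ⟨u, v, hu, hv, hr⟩ := hhom q s s' hs hs'
      refine ⟨u, v, hu, hv, ?_⟩
      rw [hAL, hAp] at hr
      omega
  · refine (size_Rf (Cc D) hP).trans ?_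
    rw [← hℓ]
    have h1 : 2 * Nat.card (Cc D).N + 2 ≤ 2 ^ (11 * w ^ 3 + 2) := by
      rw [pow_add]
      have : 1 ≤ 2 ^ (11 * w ^ 3) := Nat.one_le_two_pow
      omega
    calc (2 * Nat.card (Cc D).N + 2) ^ (W + 1) ≤ (2 ^ (11 * w ^ 3 + 2)) ^ (W + 1) :=
          Nat.pow_le_pow_left h1 _
      _ = 2 ^ ((11 * w ^ 3 + 2) * (W + 1)) := (pow_mul _ _ _).symm
      _ ≤ 2 ^ ℓ ^ 14 := by
          refine Nat.pow_le_pow_right (by norm_num) ?_
          have h2 : k ≤ 2 * ℓ := by omega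
          have h3 : w ^ 3 ≤ 512 * ℓ ^ 6 := by
            calc w ^ 3 = 8 * k ^ 6 := by rw [hw]; ring
              _ ≤ 8 * (2 * ℓ) ^ 6 := Nat.mul_le_mul_left _ (Nat.pow_le_pow_left h2 _)
              _ = 512 * ℓ ^ 6 := by ring
          have h4 : 1 ≤ ℓ ^ 6 := Nat.one_le_pow _ _ (by omega)
          have hW : W + 1 = 201 := rfl
          rw [hW]
          calc (11 * w ^ 3 + 2) * 201 ≤ (11 * (512 * ℓ ^ 6) + 2 * ℓ ^ 6) * 201 := by
                refine Nat.mul_le_mul_right _ (by omega)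
            _ = 1132434 * ℓ ^ 6 := by ring
            _ ≤ 7 ^ 8 * ℓ ^ 6 := Nat.mul_le_mul_right _ (by norm_num)
            _ ≤ ℓ ^ 8 * ℓ ^ 6 := Nat.mul_le_mul_right _ (Nat.pow_le_pow_left hℓ7 _)
            _ = ℓ ^ 14 := by rw [← pow_add]

end Pool.Agent.H63.UB
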