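import Pool.Agent.H63.UB.Count
import Pool.Agent.H63.UB.Php

/-!
# From heavy cells to the weak pigeonhole principle
-/

set_option autoImplicit false
set_option linter.unusedSectionVars false

namespace Pool.Agent.H63.UB

open Pool.Agent.H63.YL

variable {P H Q T : Type} {C : Circuit P H} {k : ℕ}

/-- the edges of `μ` lie in one cell -/
def Common (cu : P → ℕ) (cv : H → ℕ) (μ : Finset (P × H)) : Prop :=
  ∀ p ∈ μ, ∀ q ∈ μ, cu p.1 = cu q.1 ∧ cv p.2 = cv q.2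

open Classical in
/-- the total injective relation -/
theorem spread_tot (B : Base C k) {cu : P → ℕ} {cv : H → ℕ} {hv : C.N}
    (hhv : C.gate hv = .and {z | ∃ μ : Finset (P × H), Mt μ ∧ μ.card = k + 1 ∧ Common cu cv μ ∧
      z = ⟨B.cj μ, false⟩}) (h : Pv C [⟨hv, false⟩])
    {st : T → Finset P} (hst : ∀ μ : Finset (P × H), Mt μ → μ.card = k + 1 → Common cu cv μ →
      ∃ τ, st τ = μ.image Prod.fst)
    {rn : T → C.N} (hrn : ∀ τ, C.gate (rn τ) = .and {z | ∃ μ : Finset (P × H), Mt μ ∧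
      μ.card = k + 1 ∧ Common cu cv μ ∧ μ.image Prod.fst = st τ ∧ z = ⟨B.cj μ, false⟩})
    {s : List (Lit C.N)} (hs : s.length ≤ 40)
    (hyp : ∀ τ, Pv C (⟨rn τ, true⟩ :: s)) : Pv C s := by
  have h1 : Pv C (⟨hv, true⟩ :: s) := by
    refine Pv.andI hhv ?_ (by simp [W]; omega)
    rintro _ ⟨μ, h1, h2, h3, rfl⟩
    obtain ⟨τ, hτ⟩ := hst μ h1 h2 h3
    have h4 : Pv C [⟨rn τ, false⟩, ⟨B.cj μ, false⟩] :=
      Pv.andE (hrn τ) ⟨μ, h1, h2, h3, hτ.symm, rfl⟩
    refine h4.of2 (hyp τ) (fun α => ?_) (by simp [W]; omega)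
    simp
    tauto
  refine h1.of2 h (fun α => ?_) (by simp [W]; omega)
  simp
  tauto

open Classical in
theorem spread_inj (B : Base C k) {cu cu' : P → ℕ} {cv cv' : H → ℕ}
    (huniq : ∀ μ : Finset (P × H), Mt μ → μ.card = k + 1 → Common cu cv μ → Common cu' cv' μ →
      False) {X : Finset P} {rn rn' : C.N}
    (hrn : C.gate rn = .and {z | ∃ μ : Finset (P × H), Mt μ ∧
      μ.card = k + 1 ∧ Common cu cv μ ∧ μ.image Prod.fst = X ∧ z = ⟨B.cj μ, false⟩})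
    (hrn' : C.gate rn' = .and {z | ∃ μ : Finset (P × H), Mt μ ∧
      μ.card = k + 1 ∧ Common cu' cv' μ ∧ μ.image Prod.fst = X ∧ z = ⟨B.cj μ, false⟩}) :
    Pv C [⟨rn, true⟩, ⟨rn', true⟩] := by
  refine Pv.andI hrn ?_ (by simp [W])
  rintro _ ⟨μ, h1, h2, h3, h4, rfl⟩
  have key : Pv C [⟨rn', true⟩, ⟨B.cj μ, false⟩] := by
    refine Pv.andI hrn' ?_ (by simp [W])
    rintro _ ⟨ν, g1, g2, g3, g4, rfl⟩
    have hne : ¬ μ ⊆ ν := by
      intro hs
      have h5 : μ = ν := Finset.eq_of_subset_of_card_le hs (by omega)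
      subst h5
      exact huniq μ h1 h2 h3 g3
    obtain ⟨⟨x, y⟩, hp, hpν⟩ := Finset.not_subset.1 hne
    have h5 : x ∈ ν.image Prod.fst := by
      rw [g4, ← h4]
      exact Finset.mem_image.2 ⟨_, hp, rfl⟩
    obtain ⟨⟨x', y'⟩, hq, rfl⟩ := Finset.mem_image.1 h5
    have h6 : y ≠ y' := by
      rintro rfl
      exact hpν hq
    have h7 := B.cjE (μ := μ) (by omega) hp
    have h8 := B.cjE (μ := ν) (by omega) hq
    have h9 : Pv C [⟨B.vr x' y, false⟩, ⟨B.vr x' y', false⟩] :=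
      Pv.oneHole h6 (B.vr_gate _ _) (B.vr_gate _ _)
    refine h7.three' h8 h9 (by simp [W]) fun α => ?_
    simp
    tauto
  refine key.one' (by simp [W]) fun α => ?_
  simp
  tauto

end Pool.Agent.H63.UB
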