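import Pool.Agent.H63.UB.Tool

/-!
# Counters
-/

set_option autoImplicit false
set_option linter.unusedSectionVars false

namespace Pool.Agent.H63.UB

open Pool.Agent.H63.YL

variable {P H : Type} {C : Circuit P H} {M : ℕ}

/-- `c` counts the sum of `c₁` and `c₂` -/
structure IsSum (C : Circuit P H) (M : ℕ) (c₁ c₂ c : ℕ → Lit C.N) : Prop where
  intro : ∀ a b, a + b ≤ M → Pv C [(c₁ a).neg, (c₂ b).neg, c (a + b)]
  elim : ∀ T ≤ M, ∀ s : List (Lit C.N), s.length ≤ 20 →
    (∀ a b, a + b = T → Pv C ((c₁ a).neg :: (c₂ b).neg :: s)) → Pv C ((c T).neg :: s)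

/-- a counter -/
structure IsCtr (C : Circuit P H) (M : ℕ) (c : ℕ → Lit C.N) : Prop where
  zero : Pv C [c 0]
  anti : ∀ T, T + 1 ≤ M → Pv C [(c (T + 1)).neg, c T]

theorem IsSum.isCtr {c₁ c₂ c : ℕ → Lit C.N} (h : IsSum C M c₁ c₂ c) (h₁ : IsCtr C M c₁)
    (h₂ : IsCtr C M c₂) : IsCtr C M c := by
  refine ⟨?_, ?_⟩
  · exact h₁.zero.three' h₂.zero (h.intro 0 0 (Nat.zero_le _)) (by simp [W]) fun α => by simp; tauto
  · intro T hT
    refine h.elim (T + 1) hT _ (by simp) ?_
    intro a b hab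
    rcases a with _ | a
    · obtain rfl : b = T + 1 := by omega
      have h3 := h.intro 0 T (by omega)
      rw [zero_add] at h3
      exact (h₂.anti T hT).two' h3 (by simp [W]) fun α => by simp; tauto
    · have h3 := h.intro a b (by omega)
      have h4 : a + b = T := by omega
      rw [h4] at h3
      exact (h₁.anti a (by omega)).two' h3 (by simp [W]) fun α => by simp; tauto

/-- the comparison of two counters in the context `s` -/
def Rl (C : Circuit P H) (M : ℕ) (s : List (Lit C.N)) (c d : ℕ → Lit C.N) (k l : ℕ) : Prop :=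
  ∀ T, T + k ≤ M → T + l ≤ M → Pv C ((c (T + k)).neg :: d (T + l) :: s)

variable {s : List (Lit C.N)} {c₁ c₂ c d₁ d₂ d : ℕ → Lit C.N}

theorem sum_mono (hs : s.length ≤ 10) (hc : IsSum C M c₁ c₂ c) (hd : IsSum C M d₁ d₂ d)
    (h₁ : Rl C M s c₁ d₁ 0 0) (h₂ : Rl C M s c₂ d₂ 0 0) : Rl C M s c d 0 0 := by
  intro T hT _
  refine hc.elim T hT _ (by simp; omega) fun a b hab => ?_
  refine (h₁ a (by omega) (by omega)).of3 (h₂ b (by omega) (by omega))
    (hd.intro a b (by omega)) (fun α => ?_) (by simp [W]; omega)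
  have : T + 0 = a + b := by omega
  rw [this]
  simp
  tauto

theorem sum_up1 (hs : s.length ≤ 10) (hc : IsSum C M c₁ c₂ c) (hd : IsSum C M d₁ d₂ d)
    (h₁ : Rl C M s c₁ d₁ 0 1) (h₂ : Rl C M s c₂ d₂ 0 0) : Rl C M s c d 0 1 := by
  intro T hT hT1
  refine hc.elim T hT _ (by simp; omega) fun a b hab => ?_
  refine (h₁ a (by omega) (by omega)).of3 (h₂ b (by omega) (by omega))
    (hd.intro (a + 1) b (by omega)) (fun α => ?_) (by simp [W]; omega)
  have : T + 1 = a + 1 + b := by omega
  rw [this]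
  simp
  tauto

theorem sum_up2 (hs : s.length ≤ 10) (hc : IsSum C M c₁ c₂ c) (hd : IsSum C M d₁ d₂ d)
    (h₁ : Rl C M s c₁ d₁ 0 0) (h₂ : Rl C M s c₂ d₂ 0 1) : Rl C M s c d 0 1 := by
  intro T hT hT1
  refine hc.elim T hT _ (by simp; omega) fun a b hab => ?_
  refine (h₁ a (by omega) (by omega)).of3 (h₂ b (by omega) (by omega))
    (hd.intro a (b + 1) (by omega)) (fun α => ?_) (by simp [W]; omega)
  have : T + 1 = a + (b + 1) := by omega
  rw [this]
  simp
  tauto

theorem sum_dn1 (hs : s.length ≤ 10) (hc : IsSum C M c₁ c₂ c) (hd : IsSum C M d₁ d₂ d)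
    (hd₁ : IsCtr C M d₁) (hd₂ : IsCtr C M d₂)
    (h₁ : Rl C M s c₁ d₁ 1 0) (h₂ : Rl C M s c₂ d₂ 0 0) : Rl C M s c d 1 0 := by
  intro T hT1 hT
  refine hc.elim (T + 1) hT1 _ (by simp; omega) fun a b hab => ?_
  rcases a with _ | a
  · obtain rfl : b = T + 1 := by omega
    have h3 := hd.intro 0 T (by omega)
    rw [zero_add] at h3
    refine (h₂ (T + 1) (by omega) (by omega)).of4 (hd₂.anti T (by omega)) hd₁.zero h3
      (fun α => ?_) (by simp [W]; omega)
    simp
    tauto
  · refine (h₁ a (by omega) (by omega)).of3 (h₂ b (by omega) (by omega))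
      (hd.intro a b (by omega)) (fun α => ?_) (by simp [W]; omega)
    have : T + 0 = a + b := by omega
    rw [this]
    simp
    tauto

theorem sum_dn2 (hs : s.length ≤ 10) (hc : IsSum C M c₁ c₂ c) (hd : IsSum C M d₁ d₂ d)
    (hd₁ : IsCtr C M d₁) (hd₂ : IsCtr C M d₂)
    (h₁ : Rl C M s c₁ d₁ 0 0) (h₂ : Rl C M s c₂ d₂ 1 0) : Rl C M s c d 1 0 := by
  intro T hT1 hT
  refine hc.elim (T + 1) hT1 _ (by simp; omega) fun a b hab => ?_
  rcases b with _ | b
  · obtain rfl : a = T + 1 := by omega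
    have h3 := hd.intro T 0 (by omega)
    rw [add_zero] at h3
    refine (h₁ (T + 1) (by omega) (by omega)).of4 (hd₁.anti T (by omega)) hd₂.zero h3
      (fun α => ?_) (by simp [W]; omega)
    simp
    tauto
  · refine (h₁ a (by omega) (by omega)).of3 (h₂ b (by omega) (by omega))
      (hd.intro a b (by omega)) (fun α => ?_) (by simp [W]; omega)
    have : T + 0 = a + b := by omega
    rw [this]
    simp
    tauto

/-- a counter which counts nothing -/
def IsNil (C : Circuit P H) (M : ℕ) (c : ℕ → Lit C.N) : Prop :=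
  ∀ T, T + 1 ≤ M → Pv C [(c (T + 1)).neg]

theorem sum_nil (hc : IsSum C M c₁ c₂ c) (h₁ : IsNil C M c₁) (h₂ : IsNil C M c₂) :
    IsNil C M c := by
  intro T hT
  refine hc.elim (T + 1) hT _ (by simp) fun a b hab => ?_
  rcases a with _ | a
  · obtain rfl : b = T + 1 := by omega
    exact (h₂ T (by omega)).one' (by simp [W]) fun α => by simp; tauto
  · exact (h₁ a (by omega)).one' (by simp [W]) fun α => by simp; tauto

/-- a counter system: partial sums of the counters of the cells -/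
structure IsTot (C : Circuit P H) (M R : ℕ) (cell tot : ℕ → ℕ → Lit C.N) : Prop where
  zero : Pv C [tot 0 0]
  nil : IsNil C M (tot 0)
  ctr : ∀ r < R, IsCtr C M (cell r)
  sum : ∀ r < R, IsSum C M (tot r) (cell r) (tot (r + 1))

variable {R : ℕ} {cell tot cell' tot' : ℕ → ℕ → Lit C.N}

theorem IsTot.isCtr (h : IsTot C M R cell tot) : ∀ r ≤ R, IsCtr C M (tot r) := by
  intro r
  induction r with
  | zero =>
    intro _
    refine ⟨h.zero, fun T hT => ?_⟩
    exact (h.nil T hT).one' (by simp [W]) fun α => by simp; tauto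
  | succ r ih =>
    intro hr
    exact (h.sum r (by omega)).isCtr (ih (by omega)) (h.ctr r (by omega))

theorem IsTot.isNil (h : IsTot C M R cell tot) (h0 : ∀ r < R, IsNil C M (cell r)) :
    ∀ r ≤ R, IsNil C M (tot r) := by
  intro r
  induction r with
  | zero => intro _; exact h.nil
  | succ r ih =>
    intro hr
    exact sum_nil (h.sum r (by omega)) (ih (by omega)) (h0 r (by omega))

theorem IsTot.rl_zero (h : IsTot C M R cell tot) (h' : IsTot C M R cell' tot')
    (hs : s.length ≤ 10) : Rl C M s (tot 0) (tot' 0) 0 0 := by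
  intro T hT _
  rcases T with _ | T
  · refine h'.zero.of1 (fun α => ?_) (by simp [W]; omega)
    simp
    tauto
  · refine (h.nil T hT).of1 (fun α => ?_) (by simp [W]; omega)
    simp
    tauto

theorem IsTot.rl_mono (h : IsTot C M R cell tot) (h' : IsTot C M R cell' tot')
    (hs : s.length ≤ 10) {r₀ : ℕ} (hr₀ : r₀ ≤ R)
    (hrl : ∀ r < r₀, Rl C M s (cell r) (cell' r) 0 0) : Rl C M s (tot r₀) (tot' r₀) 0 0 := by
  induction r₀ with
  | zero => exact h.rl_zero h' hs
  | succ r ih =>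
    exact sum_mono hs (h.sum r (by omega)) (h'.sum r (by omega))
      (ih (by omega) fun r' hr' => hrl r' (by omega)) (hrl r (by omega))

theorem IsTot.rl_up (h : IsTot C M R cell tot) (h' : IsTot C M R cell' tot')
    (hs : s.length ≤ 10) {r₀ : ℕ} (hr₀ : r₀ < R)
    (hrl : ∀ r < R, r ≠ r₀ → Rl C M s (cell r) (cell' r) 0 0)
    (h0 : Rl C M s (cell r₀) (cell' r₀) 0 1) : Rl C M s (tot R) (tot' R) 0 1 := by
  suffices key : ∀ r, r₀ < r → r ≤ R → Rl C M s (tot r) (tot' r) 0 1 from key R hr₀ le_rfl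
  intro r
  induction r with
  | zero => intro h1; omega
  | succ r ih =>
    intro h1 h2
    rcases Nat.lt_or_ge r₀ r with h3 | h3
    · exact sum_up1 hs (h.sum r (by omega)) (h'.sum r (by omega)) (ih h3 (by omega))
        (hrl r (by omega) (by omega))
    · obtain rfl : r = r₀ := by omega
      exact sum_up2 hs (h.sum r (by omega)) (h'.sum r (by omega))
        (h.rl_mono h' hs (by omega) fun r' hr' => hrl r' (by omega) (by omega)) h0

theorem IsTot.rl_dn (h : IsTot C M R cell tot) (h' : IsTot C M R cell' tot')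
    (hs : s.length ≤ 10) {r₀ : ℕ} (hr₀ : r₀ < R)
    (hrl : ∀ r < R, r ≠ r₀ → Rl C M s (cell r) (cell' r) 0 0)
    (h0 : Rl C M s (cell r₀) (cell' r₀) 1 0) : Rl C M s (tot R) (tot' R) 1 0 := by
  suffices key : ∀ r, r₀ < r → r ≤ R → Rl C M s (tot r) (tot' r) 1 0 from key R hr₀ le_rfl
  intro r
  induction r with
  | zero => intro h1; omega
  | succ r ih =>
    intro h1 h2
    have hc := h'.isCtr r (by omega)
    have hc' := h'.ctr r (by omega)
    rcases Nat.lt_or_ge r₀ r with h3 | h3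
    · exact sum_dn1 hs (h.sum r (by omega)) (h'.sum r (by omega)) hc hc' (ih h3 (by omega))
        (hrl r (by omega) (by omega))
    · obtain rfl : r = r₀ := by omega
      exact sum_dn2 hs (h.sum r (by omega)) (h'.sum r (by omega)) hc hc'
        (h.rl_mono h' hs (by omega) fun r' hr' => hrl r' (by omega) (by omega)) h0

end Pool.Agent.H63.UB
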