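import Pool.Agent.H63.YL.Defs

/-!
# Provability with lines of bounded width
-/

set_option autoImplicit false
set_option linter.unusedSectionVars false

namespace Pool.Agent.H63.UB

open Pool.Agent.H63.YL

variable {P H : Type}

instance {N : Type} [Finite N] : Finite (Lit N) := by
  have : Function.Injective (fun x : Lit N => (x.node, x.pos)) := by
    rintro ⟨a, p⟩ ⟨b, q⟩ h
    simp only [Prod.mk.injEq] at h
    obtain ⟨rfl, rfl⟩ := h
    rfl
  exact Finite.of_injective _ this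

/-- the width -/
def W : ℕ := 200

/-- the allowed lines -/
def Ok (C : Circuit P H) (Λ : Set (Lit C.N)) : Prop :=
  ∃ Δ : Set (Lit C.N), Δ.ncard ≤ W ∧ (Λ = Δ ∨ ∃ a S, C.gate a = .and S ∧ Λ = Δ ∪ Lit.neg '' S)

/-- the lines derived in `k` rounds -/
def Dk (C : Circuit P H) : ℕ → Set (Set (Lit C.N))
  | 0 => ∅
  | k + 1 => Dk C k ∪ {Λ | Ok C Λ ∧ Step C (Dk C k) Λ}

/-- the provable lines -/
def Prov (C : Circuit P H) (Λ : Set (Lit C.N)) : Prop := ∃ k, Λ ∈ Dk C k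

theorem step_mono {C : Circuit P H} {Q Q' : Set (Set (Lit C.N))} (h : Q ⊆ Q')
    {Λ : Set (Lit C.N)} (hs : Step C Q Λ) : Step C Q' Λ := by
  cases hs with
  | pigeon i h1 => exact .pigeon i h1
  | hole j h1 => exact .hole j h1
  | oneHole h1 h2 h3 h4 h5 => exact .oneHole h1 h2 h3 h4 h5
  | onePigeon h1 h2 h3 h4 h5 => exact .onePigeon h1 h2 h3 h4 h5
  | ident h1 h2 h3 => exact .ident h1 h2 h3
  | weak h1 h2 => exact .weak (h h1) h2
  | cut h1 h2 => exact .cut (h h1) (h h2)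
  | andI h1 h2 h3 => exact .andI h1 h2 fun x hx => h (h3 x hx)
  | andE h1 h2 h3 => exact .andE h1 h2 (h h3)

theorem Dk_mono (C : Circuit P H) {k l : ℕ} (h : k ≤ l) : Dk C k ⊆ Dk C l := by
  induction h with
  | refl => exact subset_rfl
  | step _ ih => exact ih.trans Set.subset_union_left

theorem prov_step {C : Circuit P H} {Λ : Set (Lit C.N)} (hok : Ok C Λ)
    (hs : Step C {Δ | Prov C Δ} Λ) : Prov C Λ := by
  suffices h : ∃ k, Step C (Dk C k) Λ by
    obtain ⟨k, hk⟩ := h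
    exact ⟨k + 1, Or.inr ⟨hok, hk⟩⟩
  cases hs with
  | pigeon i h1 => exact ⟨0, .pigeon i h1⟩
  | hole j h1 => exact ⟨0, .hole j h1⟩
  | oneHole h1 h2 h3 h4 h5 => exact ⟨0, .oneHole h1 h2 h3 h4 h5⟩
  | onePigeon h1 h2 h3 h4 h5 => exact ⟨0, .onePigeon h1 h2 h3 h4 h5⟩
  | ident h1 h2 h3 => exact ⟨0, .ident h1 h2 h3⟩
  | weak h1 h2 =>
    obtain ⟨k, hk⟩ := h1
    exact ⟨k, .weak hk h2⟩
  | cut h1 h2 =>
    obtain ⟨k, hk⟩ := h1
    obtain ⟨l, hl⟩ := h2
    exact ⟨max k l, .cut (Dk_mono C (le_max_left _ _) hk) (Dk_mono C (le_max_right _ _) hl)⟩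
  | @andI S a h1 h2 h3 =>
    classical
    have h4 : ∀ x : S, ∃ k, insert x.1 Λ ∈ Dk C k := fun x => h3 x.1 x.2
    choose k hk using h4
    have : Fintype S := Fintype.ofFinite S
    refine ⟨Finset.univ.sup k, .andI h1 h2 fun x hx => ?_⟩
    exact Dk_mono C (Finset.le_sup (Finset.mem_univ (⟨x, hx⟩ : S))) (hk ⟨x, hx⟩)
  | andE h1 h2 h3 =>
    obtain ⟨k, hk⟩ := h3
    exact ⟨k, .andE h1 h2 hk⟩

theorem prov_ok {C : Circuit P H} {Λ : Set (Lit C.N)} (h : Prov C Λ) : Ok C Λ := by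
  obtain ⟨k, hk⟩ := h
  induction k with
  | zero => exact absurd hk (Set.notMem_empty _)
  | succ k ih =>
    rcases hk with hk | hk
    · exact ih hk
    · exact hk.1

open Classical in
/-- the refutation made of all provable lines -/
noncomputable def Rf (C : Circuit P H) (h : Prov C ∅) : Refutation P H where
  C := C
  lines := {Λ | Prov C Λ}
  order := fun Λ => sInf {k | Λ ∈ Dk C k}
  step := by
    intro Λ hΛ
    have h1 : Λ ∈ Dk C (sInf {k | Λ ∈ Dk C k}) := Nat.sInf_mem (s := {k | Λ ∈ Dk C k}) hΛ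
    obtain ⟨k, hk⟩ : ∃ k, k = sInf {k | Λ ∈ Dk C k} := ⟨_, rfl⟩
    rw [← hk] at h1 ⊢
    rcases k with _ | k
    · exact absurd h1 (Set.notMem_empty _)
    rcases h1 with h1 | h1
    · exfalso
      have : sInf {k | Λ ∈ Dk C k} ≤ k := Nat.sInf_le h1
      omega
    · refine step_mono ?_ h1.2
      intro Δ hΔ
      refine ⟨⟨k, hΔ⟩, ?_⟩
      have : sInf {k | Δ ∈ Dk C k} ≤ k := Nat.sInf_le hΔ
      omega
  empty_mem := h

theorem card_lit (N : Type) [Finite N] : Nat.card (Lit N) = 2 * Nat.card N := by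
  have e : Lit N ≃ N × Bool :=
    ⟨fun x => (x.node, x.pos), fun x => ⟨x.1, x.2⟩, fun _ => rfl, fun _ => rfl⟩
  rw [Nat.card_congr e, Nat.card_prod]
  simp [mul_comm]

theorem size_Rf (C : Circuit P H) (h : Prov C ∅) :
    (Rf C h).size ≤ (2 * Nat.card C.N + 2) ^ (W + 1) := by
  classical
  have : Fintype C.N := Fintype.ofFinite _
  have : Fintype (Lit C.N) := Fintype.ofFinite _
  let g : (Fin W → Option (Lit C.N)) × Option C.N → Set (Lit C.N) := fun y =>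
    {x | ∃ i, y.1 i = some x} ∪
      (match y.2 with | none => ∅ | some a => Lit.neg '' (C.gate a).children)
  have h1 : (Rf C h).lines ⊆ g '' Set.univ := by
    intro Λ hΛ
    obtain ⟨Δ, hΔ, hΛ⟩ := prov_ok hΛ
    -- enumerate
    have h2 : ∃ f : Fin W → Option (Lit C.N), {x | ∃ i, f i = some x} = Δ := by
      have hfin : Δ.Finite := Set.toFinite _
      let e := hfin.toFinset.equivFin
      have hc : hfin.toFinset.card = Δ.ncard := (Set.ncard_eq_toFinset_card Δ hfin).symm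
      refine ⟨fun i => if hi : (i : ℕ) < hfin.toFinset.card then some (e.symm ⟨i, hi⟩).1 else none, ?_⟩
      ext x
      constructor
      · rintro ⟨i, hi⟩
        dsimp only at hi
        split_ifs at hi with h3
        · have := (e.symm ⟨i, h3⟩).2
          rw [← Option.some.inj hi]
          exact hfin.mem_toFinset.1 this
      · intro hx
        have hx' : x ∈ hfin.toFinset := hfin.mem_toFinset.2 hx
        have h3 : ((e ⟨x, hx'⟩ : Fin _) : ℕ) < W := lt_of_lt_of_le (e ⟨x, hx'⟩).2 (by omega)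
        refine ⟨⟨(e ⟨x, hx'⟩ : Fin _), h3⟩, ?_⟩
        have h4 := (e ⟨x, hx'⟩).2
        dsimp only
        rw [dif_pos h4]
        simp
    obtain ⟨f, hf⟩ := h2
    rcases hΛ with rfl | ⟨a, S, hS, rfl⟩
    · refine ⟨(f, none), trivial, ?_⟩
      show {x | ∃ i, f i = some x} ∪ ∅ = _
      rw [hf]
      exact Set.union_empty _
    · refine ⟨(f, some a), trivial, ?_⟩
      show {x | ∃ i, f i = some x} ∪ Lit.neg '' (C.gate a).children = _
      rw [hf, hS]; rfl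
  have h2 : (Rf C h).lines.ncard ≤
      Nat.card ((Fin W → Option (Lit C.N)) × Option C.N) := by
    refine (Set.ncard_le_ncard h1 (Set.toFinite _)).trans ?_
    refine (Set.ncard_image_le Set.finite_univ).trans ?_
    rw [Set.ncard_univ]
  have h3 : Nat.card ((Fin W → Option (Lit C.N)) × Option C.N) =
      (2 * Nat.card C.N + 1) ^ W * (Nat.card C.N + 1) := by
    rw [Nat.card_prod, Nat.card_fun, Nat.card_eq_fintype_card (α := Fin W), Fintype.card_fin,
      Finite.card_option, Finite.card_option, card_lit]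
  rw [h3] at h2
  obtain ⟨m, hm⟩ : ∃ m, m = Nat.card C.N := ⟨_, rfl⟩
  have h4 : (Rf C h).size = Nat.card C.N + (Rf C h).lines.ncard := rfl
  rw [h4, ← hm]
  rw [← hm] at h2
  have h5 : (2 * m + 1) ^ W ≤ (2 * m + 2) ^ W := Nat.pow_le_pow_left (by omega) _
  have h6 : 1 ≤ (2 * m + 2) ^ W := Nat.one_le_pow _ _ (by omega)
  calc m + (Rf C h).lines.ncard ≤ m * (2 * m + 2) ^ W + (2 * m + 2) ^ W * (m + 1) := by
        refine Nat.add_le_add ?_ (h2.trans (Nat.mul_le_mul_right _ h5))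
        calc m = m * 1 := (mul_one m).symm
          _ ≤ m * (2 * m + 2) ^ W := Nat.mul_le_mul_left m h6
    _ ≤ (2 * m + 2) ^ W * (2 * m + 2) := by
        calc m * (2 * m + 2) ^ W + (2 * m + 2) ^ W * (m + 1)
            = (2 * m + 2) ^ W * (2 * m + 1) := by ring
          _ ≤ (2 * m + 2) ^ W * (2 * m + 2) := Nat.mul_le_mul_left _ (by omega)
    _ = (2 * m + 2) ^ (W + 1) := (pow_succ _ _).symm

/-! ### Lines given by lists -/

/-- the line of a list -/
def Ln {N : Type} (s : List (Lit N)) : Set (Lit N) := {x | x ∈ s}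

/-- provable lists -/
def Pv (C : Circuit P H) (s : List (Lit C.N)) : Prop := Prov C (Ln s)

/-- truth of a signed node -/
def Tr {N : Type} (α : N → Prop) (x : Lit N) : Prop := if x.pos = true then α x.node else ¬ α x.node

@[simp] theorem tr_true {N : Type} (α : N → Prop) (a : N) : Tr α ⟨a, true⟩ ↔ α a := by simp [Tr]

@[simp] theorem tr_false {N : Type} (α : N → Prop) (a : N) : Tr α ⟨a, false⟩ ↔ ¬ α a := by
  simp [Tr]

@[simp] theorem tr_neg {N : Type} (α : N → Prop) (x : Lit N) : Tr α x.neg ↔ ¬ Tr α x := by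
  rcases x with ⟨a, _ | _⟩ <;> simp [Tr, Lit.neg]

theorem ncard_ln {N : Type} (s : List (Lit N)) : (Ln s).ncard ≤ s.length := by
  classical
  have : Ln s = ((s.toFinset : Finset (Lit N)) : Set (Lit N)) := by
    ext x; simp [Ln]
  rw [this, Set.ncard_coe_finset]
  exact List.toFinset_card_le s

theorem ok_ln {C : Circuit P H} {s : List (Lit C.N)} (h : s.length ≤ W) : Ok C (Ln s) :=
  ⟨Ln s, (ncard_ln s).trans h, Or.inl rfl⟩

theorem ln_cons {N : Type} (x : Lit N) (s : List (Lit N)) : Ln (x :: s) = insert x (Ln s) := by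
  ext y; simp [Ln]

theorem Pv.weak {C : Circuit P H} {s s' : List (Lit C.N)} (h : Pv C s) (hs : s ⊆ s')
    (hw : s'.length ≤ W) : Pv C s' :=
  prov_step (ok_ln hw) (.weak h fun _ hx => hs hx)

theorem Pv.cut {C : Circuit P H} {a : C.N} {s : List (Lit C.N)} (h : Pv C (⟨a, true⟩ :: s))
    (h' : Pv C (⟨a, false⟩ :: s)) (hw : s.length ≤ W) : Pv C s := by
  refine prov_step (ok_ln hw) (.cut (a := a) ?_ ?_)
  · rw [← ln_cons]; exact h
  · rw [← ln_cons]; exact h'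

theorem Pv.ident {C : Circuit P H} {a : C.N} {s : List (Lit C.N)} (h : ⟨a, true⟩ ∈ s)
    (h' : ⟨a, false⟩ ∈ s) (hw : s.length ≤ W) : Pv C s :=
  prov_step (ok_ln hw) (.ident (a := a) (b := a) rfl h h')

private theorem loc_aux {C : Circuit P H} {G : List (List (Lit C.N))} {s : List (Lit C.N)}
    (hG : ∀ g ∈ G, Pv C g)
    (sem : ∀ α : C.N → Prop, (∀ g ∈ G, ∃ x ∈ g, Tr α x) → ∃ x ∈ s, Tr α x) :
    ∀ (V : List C.N) (c : List (Lit C.N)), s ⊆ c →
      (∀ g ∈ G, ∀ x ∈ g, x.node ∈ V ∨ ⟨x.node, true⟩ ∈ c ∨ ⟨x.node, false⟩ ∈ c) →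
      c.length + V.length ≤ W → Pv C c := by
  intro V
  induction V with
  | nil =>
    intro c hc hdec hlen
    rw [List.length_nil, add_zero] at hlen
    by_cases h1 : ∃ a, (⟨a, true⟩ : Lit C.N) ∈ c ∧ (⟨a, false⟩ : Lit C.N) ∈ c
    · obtain ⟨a, ha, hb⟩ := h1
      exact Pv.ident ha hb hlen
    push Not at h1
    obtain ⟨α, hα⟩ : ∃ α : C.N → Prop, ∀ a, α a ↔ (⟨a, false⟩ : Lit C.N) ∈ c :=
      ⟨fun a => ⟨a, false⟩ ∈ c, fun _ => Iff.rfl⟩
    have h2 : ∀ x ∈ c, ¬ Tr α x := by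
      rintro ⟨a, _ | _⟩ hx
      · rw [tr_false, not_not, hα]; exact hx
      · rw [tr_true, hα]; exact h1 a hx
    by_cases h3 : ∀ g ∈ G, ∃ x ∈ g, Tr α x
    · obtain ⟨x, hx, h4⟩ := sem α h3
      exact absurd h4 (h2 x (hc hx))
    · push Not at h3
      obtain ⟨g, hg, h3⟩ := h3
      refine (hG g hg).weak ?_ hlen
      rintro ⟨a, _ | _⟩ hx
      · have := h3 _ hx
        rw [tr_false, not_not, hα] at this
        exact this
      · have h5 := h3 _ hx
        rw [tr_true, hα] at h5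
        rcases hdec g hg _ hx with h6 | h6 | h6
        · exact absurd h6 List.not_mem_nil
        · exact h6
        · exact absurd h6 h5
  | cons a V ih =>
    intro c hc hdec hlen
    rw [List.length_cons] at hlen
    refine Pv.cut (a := a) (ih _ ?_ ?_ ?_) (ih _ ?_ ?_ ?_) (by omega)
    · exact fun x hx => List.mem_cons_of_mem _ (hc hx)
    · intro g hg x hx
      rcases hdec g hg x hx with h1 | h1 | h1
      · rcases List.mem_cons.1 h1 with h1 | h1
        · right; left; rw [h1]; exact List.mem_cons_self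
        · exact Or.inl h1
      · exact Or.inr (Or.inl (List.mem_cons_of_mem _ h1))
      · exact Or.inr (Or.inr (List.mem_cons_of_mem _ h1))
    · rw [List.length_cons]; omega
    · exact fun x hx => List.mem_cons_of_mem _ (hc hx)
    · intro g hg x hx
      rcases hdec g hg x hx with h1 | h1 | h1
      · rcases List.mem_cons.1 h1 with h1 | h1
        · right; right; rw [h1]; exact List.mem_cons_self
        · exact Or.inl h1
      · exact Or.inr (Or.inl (List.mem_cons_of_mem _ h1))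
      · exact Or.inr (Or.inr (List.mem_cons_of_mem _ h1))
    · rw [List.length_cons]; omega

/-- **Local completeness.** -/
theorem Pv.loc {C : Circuit P H} (G : List (List (Lit C.N))) (hG : ∀ g ∈ G, Pv C g)
    (s : List (Lit C.N))
    (sem : ∀ α : C.N → Prop, (∀ g ∈ G, ∃ x ∈ g, Tr α x) → ∃ x ∈ s, Tr α x)
    (hw : s.length + (G.flatten.map Lit.node).length ≤ W) : Pv C s := by
  refine loc_aux hG sem (G.flatten.map Lit.node) s (fun _ h => h) ?_ hw
  intro g hg x hx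
  left
  rw [List.mem_map]
  exact ⟨x, List.mem_flatten.2 ⟨g, hg, hx⟩, rfl⟩

theorem Pv.of0 {C : Circuit P H} {s : List (Lit C.N)}
    (sem : ∀ α : C.N → Prop, ∃ x ∈ s, Tr α x) (hw : s.length ≤ W) : Pv C s :=
  Pv.loc [] (by simp) s (fun α _ => sem α) (by simpa using hw)

theorem Pv.of1 {C : Circuit P H} {s s₁ : List (Lit C.N)} (h₁ : Pv C s₁)
    (sem : ∀ α : C.N → Prop, (∃ x ∈ s₁, Tr α x) → ∃ x ∈ s, Tr α x)
    (hw : s.length + s₁.length ≤ W) : Pv C s :=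
  Pv.loc [s₁] (by simpa using h₁) s (fun α h => sem α (h s₁ (by simp))) (by simpa using hw)

theorem Pv.of2 {C : Circuit P H} {s s₁ s₂ : List (Lit C.N)} (h₁ : Pv C s₁) (h₂ : Pv C s₂)
    (sem : ∀ α : C.N → Prop, (∃ x ∈ s₁, Tr α x) → (∃ x ∈ s₂, Tr α x) → ∃ x ∈ s, Tr α x)
    (hw : s.length + (s₁.length + s₂.length) ≤ W) : Pv C s :=
  Pv.loc [s₁, s₂] (by simpa using ⟨h₁, h₂⟩) s
    (fun α h => sem α (h s₁ (by simp)) (h s₂ (by simp))) (by simpa using hw)

theorem Pv.of3 {C : Circuit P H} {s s₁ s₂ s₃ : List (Lit C.N)} (h₁ : Pv C s₁) (h₂ : Pv C s₂)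
    (h₃ : Pv C s₃)
    (sem : ∀ α : C.N → Prop, (∃ x ∈ s₁, Tr α x) → (∃ x ∈ s₂, Tr α x) → (∃ x ∈ s₃, Tr α x) →
      ∃ x ∈ s, Tr α x)
    (hw : s.length + (s₁.length + (s₂.length + s₃.length)) ≤ W) : Pv C s :=
  Pv.loc [s₁, s₂, s₃] (by simpa using ⟨h₁, h₂, h₃⟩) s
    (fun α h => sem α (h s₁ (by simp)) (h s₂ (by simp)) (h s₃ (by simp))) (by simpa using hw)

theorem Pv.of4 {C : Circuit P H} {s s₁ s₂ s₃ s₄ : List (Lit C.N)} (h₁ : Pv C s₁) (h₂ : Pv C s₂)
    (h₃ : Pv C s₃) (h₄ : Pv C s₄)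
    (sem : ∀ α : C.N → Prop, (∃ x ∈ s₁, Tr α x) → (∃ x ∈ s₂, Tr α x) → (∃ x ∈ s₃, Tr α x) →
      (∃ x ∈ s₄, Tr α x) → ∃ x ∈ s, Tr α x)
    (hw : s.length + (s₁.length + (s₂.length + (s₃.length + s₄.length))) ≤ W) :
    Pv C s :=
  Pv.loc [s₁, s₂, s₃, s₄] (by simpa using ⟨h₁, h₂, h₃, h₄⟩) s
    (fun α h => sem α (h s₁ (by simp)) (h s₂ (by simp)) (h s₃ (by simp)) (h s₄ (by simp)))
    (by simpa using hw)

theorem Pv.zero' {C : Circuit P H} {s : List (Lit C.N)} (hw : s.length ≤ W)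
    (sem : ∀ α : C.N → Prop, ∃ x ∈ s, Tr α x) : Pv C s := Pv.of0 sem hw

theorem Pv.one' {C : Circuit P H} {s s₁ : List (Lit C.N)} (h₁ : Pv C s₁)
    (hw : s.length + s₁.length ≤ W)
    (sem : ∀ α : C.N → Prop, (∃ x ∈ s₁, Tr α x) → ∃ x ∈ s, Tr α x) : Pv C s := h₁.of1 sem hw

theorem Pv.two' {C : Circuit P H} {s s₁ s₂ : List (Lit C.N)} (h₁ : Pv C s₁) (h₂ : Pv C s₂)
    (hw : s.length + (s₁.length + s₂.length) ≤ W)
    (sem : ∀ α : C.N → Prop, (∃ x ∈ s₁, Tr α x) → (∃ x ∈ s₂, Tr α x) → ∃ x ∈ s, Tr α x) :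
    Pv C s := h₁.of2 h₂ sem hw

theorem Pv.three' {C : Circuit P H} {s s₁ s₂ s₃ : List (Lit C.N)} (h₁ : Pv C s₁) (h₂ : Pv C s₂)
    (h₃ : Pv C s₃) (hw : s.length + (s₁.length + (s₂.length + s₃.length)) ≤ W)
    (sem : ∀ α : C.N → Prop, (∃ x ∈ s₁, Tr α x) → (∃ x ∈ s₂, Tr α x) → (∃ x ∈ s₃, Tr α x) →
      ∃ x ∈ s, Tr α x) : Pv C s := h₁.of3 h₂ h₃ sem hw

theorem Pv.four' {C : Circuit P H} {s s₁ s₂ s₃ s₄ : List (Lit C.N)} (h₁ : Pv C s₁) (h₂ : Pv C s₂)
    (h₃ : Pv C s₃) (h₄ : Pv C s₄)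
    (hw : s.length + (s₁.length + (s₂.length + (s₃.length + s₄.length))) ≤ W)
    (sem : ∀ α : C.N → Prop, (∃ x ∈ s₁, Tr α x) → (∃ x ∈ s₂, Tr α x) → (∃ x ∈ s₃, Tr α x) →
      (∃ x ∈ s₄, Tr α x) → ∃ x ∈ s, Tr α x) : Pv C s := h₁.of4 h₂ h₃ h₄ sem hw

/-! ### Conjunctions -/

theorem Pv.andI {C : Circuit P H} {a : C.N} {S : Set (Lit C.N)} {s : List (Lit C.N)}
    (hg : C.gate a = .and S) (h : ∀ x ∈ S, Pv C (x :: s)) (hw : s.length + 2 ≤ W) :
    Pv C (⟨a, true⟩ :: s) := by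
  refine prov_step (ok_ln (by rw [List.length_cons]; omega)) (.andI hg List.mem_cons_self ?_)
  intro x hx
  rw [← ln_cons]
  refine (h x hx).weak ?_ (by rw [List.length_cons, List.length_cons]; omega)
  intro y hy
  rcases List.mem_cons.1 hy with rfl | hy
  · exact List.mem_cons_self
  · exact List.mem_cons_of_mem _ (List.mem_cons_of_mem _ hy)

theorem Pv.andE {C : Circuit P H} {a : C.N} {S : Set (Lit C.N)} {x : Lit C.N}
    (hg : C.gate a = .and S) (hx : x ∈ S) : Pv C [⟨a, false⟩, x] := by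
  refine prov_step (ok_ln (by simp [W])) (.andE hg (by simp [Ln]) ?_)
  refine prov_step ⟨Ln [⟨a, false⟩, x], (ncard_ln _).trans (by simp [W]), Or.inr ⟨a, S, hg, rfl⟩⟩ ?_
  rcases x with ⟨b, _ | _⟩
  · exact .ident (a := b) (b := b) rfl (Or.inr ⟨⟨b, false⟩, hx, rfl⟩) (Or.inl (by simp [Ln]))
  · exact .ident (a := b) (b := b) rfl (Or.inl (by simp [Ln])) (Or.inr ⟨⟨b, true⟩, hx, rfl⟩)

theorem Pv.pig {C : Circuit P H} {a : C.N} {S : Set (Lit C.N)} (i : P) (hg : C.gate a = .and S)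
    (hS : ∀ j, ∃ b, C.gate b = .var i j ∧ ⟨b, false⟩ ∈ S) : Pv C [⟨a, false⟩] := by
  refine prov_step (ok_ln (by simp [W])) (.andE hg (by simp [Ln]) ?_)
  refine prov_step ⟨Ln [⟨a, false⟩], (ncard_ln _).trans (by simp [W]), Or.inr ⟨a, S, hg, rfl⟩⟩ ?_
  refine .pigeon i fun j => ?_
  obtain ⟨b, hb, hb'⟩ := hS j
  exact ⟨b, hb, Or.inr ⟨_, hb', rfl⟩⟩

theorem Pv.hol {C : Circuit P H} {a : C.N} {S : Set (Lit C.N)} (j : H) (hg : C.gate a = .and S)
    (hS : ∀ i, ∃ b, C.gate b = .var i j ∧ ⟨b, false⟩ ∈ S) : Pv C [⟨a, false⟩] := by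
  refine prov_step (ok_ln (by simp [W])) (.andE hg (by simp [Ln]) ?_)
  refine prov_step ⟨Ln [⟨a, false⟩], (ncard_ln _).trans (by simp [W]), Or.inr ⟨a, S, hg, rfl⟩⟩ ?_
  refine .hole j fun i => ?_
  obtain ⟨b, hb, hb'⟩ := hS i
  exact ⟨b, hb, Or.inr ⟨_, hb', rfl⟩⟩

theorem Pv.oneHole {C : Circuit P H} {a b : C.N} {i : P} {j j' : H} (h : j ≠ j')
    (ha : C.gate a = .var i j) (hb : C.gate b = .var i j') : Pv C [⟨a, false⟩, ⟨b, false⟩] :=
  prov_step (ok_ln (by simp [W])) (.oneHole h ha hb (by simp [Ln]) (by simp [Ln]))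

theorem Pv.onePigeon {C : Circuit P H} {a b : C.N} {i i' : P} {j : H} (h : i ≠ i')
    (ha : C.gate a = .var i j) (hb : C.gate b = .var i' j) : Pv C [⟨a, false⟩, ⟨b, false⟩] :=
  prov_step (ok_ln (by simp [W])) (.onePigeon h ha hb (by simp [Ln]) (by simp [Ln]))

end Pool.Agent.H63.UB
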